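import Pool.Agent.K7.H75.LE.BL

/-! # Arbitrary combinations of ordinates with few far terms -/

set_option autoImplicit false

open Filter Topology MeasureTheory Set

namespace Pool.Agent.K7.H75.LE

open SG (ord NZ)
open Pool.Agent.R846.UL (cn cn_eq cn_mono)

/-- many large sets have two members with a large intersection -/
lemma pig (F : ℕ → Finset ℕ) (K : ℕ) : ∑ i ∈ Finset.range K, (F i).card ≤
    ((Finset.range K).biUnion F).card + ∑ i ∈ Finset.range K, ∑ j ∈ Finset.range i, (F j ∩ F i).card := by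
  induction K with
  | zero => simp
  | succ K ih =>
    rw [Finset.sum_range_succ, Finset.sum_range_succ, Finset.range_add_one, Finset.biUnion_insert]
    have h1 := Finset.card_union_add_card_inter (F K) ((Finset.range K).biUnion F)
    have h2 : (F K ∩ (Finset.range K).biUnion F).card ≤ ∑ j ∈ Finset.range K, (F j ∩ F K).card := by
      have e : F K ∩ (Finset.range K).biUnion F = (Finset.range K).biUnion (fun j => F j ∩ F K) := by
        ext n
        simp only [Finset.mem_inter, Finset.mem_biUnion]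
        constructor
        · rintro ⟨g1, j, g2, g3⟩; exact ⟨j, g2, g3, g1⟩
        · rintro ⟨j, g2, g3, g1⟩; exact ⟨g1, j, g2, g3⟩
      rw [e]
      exact Finset.card_biUnion_le
    omega

/-- **combinations of few far ordinates** -/
theorem ordg (k : ℕ) (B : ℝ) (hB : 1 ≤ B) {η : ℝ} (hη : 0 < η) : ∃ (ε : ℝ) (D₀ : ℕ), 0 < ε ∧
    ∀ (D L N : ℕ) (m : Fin k → ℕ) (c : Fin k → ℝ) (b : ℝ), D₀ ≤ D → D ≤ L → 1 ≤ N →
    (L : ℝ) * Real.log L ≤ B * Real.log N → Real.log L ≤ Real.log D ^ 2 → (∀ i, m i ≤ L) →
    (∀ i i', i ≠ i' → (D : ℝ) ≤ |(m i : ℝ) - m i'|) → (∃ i, 1 ≤ |c i|) →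
    cn N {n | |∑ i, c i * ord (n + m i) - b| ≤ ε * Real.sqrt (Real.log D) / Real.log (ord n)} ≤ η * N := by
  classical
  obtain ⟨K, hK⟩ : ∃ K : ℕ, K = ⌈4 / η⌉₊ + 1 := ⟨_, rfl⟩
  have hK1 : 1 ≤ K := by omega
  have hKr : (1 : ℝ) ≤ K := by exact_mod_cast hK1
  have hKη : 4 ≤ K * η := by
    have h1 : 4 / η ≤ K := by
      rw [hK]; push_cast
      linarith [Nat.le_ceil (4 / η)]
    rwa [div_le_iff₀ hη] at h1
  obtain ⟨ε, D1, hε, hordz⟩ := ordz (k + k) (2 * (2 * K + 1) * B) (by nlinarith)
    (show (0 : ℝ) < 1 / (K : ℝ) ^ 2 by positivity)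
  obtain ⟨n0, hn0⟩ := (SG.ord_tendsto.eventually_ge_atTop 3).exists_forall_of_atTop
  refine ⟨ε / 2, D1 + ⌈Real.exp (2 * B)⌉₊ + K ^ 2 * (n0 + 1) + 2 * K + 16, by positivity,
    fun D L N m c b hD hDL hN hLN hLD hm hsep hc => ?_⟩
  obtain ⟨i1, hi1⟩ := hc
  have hNpos : (0 : ℝ) < N := by exact_mod_cast hN
  have hD16 : (16 : ℝ) ≤ D := by exact_mod_cast (by omega : 16 ≤ D)
  have hDLr : (D : ℝ) ≤ L := by exact_mod_cast hDL
  have hL16 : (16 : ℝ) ≤ L := by linarith
  have hlogD : 2 ≤ Real.log D := by
    rw [Real.le_log_iff_exp_le (by linarith)]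
    have h1 : Real.exp 2 = Real.exp 1 ^ 2 := by rw [← Real.exp_nat_mul]; norm_num
    rw [h1]
    have h2 := Real.exp_one_lt_d9
    have h3 := Real.exp_pos 1
    nlinarith
  have hlogL : 2 * B ≤ Real.log L := by
    rw [Real.le_log_iff_exp_le (by linarith)]
    exact (Nat.le_ceil _).trans (by exact_mod_cast (by omega : ⌈Real.exp (2 * B)⌉₊ ≤ L))
  have hlogN : 2 * (L : ℝ) ≤ Real.log N := by
    have a2 : B * (2 * (L : ℝ)) ≤ B * Real.log N := by
      refine le_trans ?_ hLN
      calc B * (2 * (L : ℝ)) = L * (2 * B) := by ring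
        _ ≤ L * Real.log L := mul_le_mul_of_nonneg_left hlogL (by linarith)
    exact le_of_mul_le_mul_left a2 (by linarith)
  have hK2 : K ^ 2 * (n0 + 1) ≤ L := by omega
  have hK2r : (K : ℝ) ^ 2 * (n0 + 1) ≤ L := by exact_mod_cast hK2
  have hK2L : (K : ℝ) ^ 2 ≤ L := by
    have : (K : ℝ) ^ 2 * 1 ≤ (K : ℝ) ^ 2 * (n0 + 1) := by
      apply mul_le_mul_of_nonneg_left _ (by positivity)
      have : (0 : ℝ) ≤ n0 := Nat.cast_nonneg _
      linarith
    linarith
  have hNexp : 2 * (L : ℝ) ^ 2 + 2 * L ≤ N := by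
    have h1 : Real.exp (2 * L) ≤ N := by
      rw [← Real.le_log_iff_exp_le hNpos]
      exact hlogN
    have h2 := Real.quadratic_le_exp_of_nonneg (show (0 : ℝ) ≤ 2 * L by positivity)
    nlinarith
  -- the events
  obtain ⟨P, hP⟩ : ∃ P : ℕ → Prop, P = fun n => |∑ i, c i * ord (n + m i) - b| ≤
    ε / 2 * Real.sqrt (Real.log D) / Real.log (ord n) := ⟨_, rfl⟩
  obtain ⟨H, hH⟩ : ∃ H : ℕ, H = L + D := ⟨_, rfl⟩
  obtain ⟨F, hF⟩ : ∃ F : ℕ → Finset ℕ, F = fun i => (Finset.Icc 1 N).filter (fun n => P (n + i * H)) :=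
    ⟨_, rfl⟩
  have hFm : ∀ i n, n ∈ F i ↔ (1 ≤ n ∧ n ≤ N) ∧ P (n + i * H) := by
    intro i n
    rw [hF, Finset.mem_filter, Finset.mem_Icc]
  set G := (Finset.Icc 1 N).filter P with hG
  have hGF : ∀ i, G.card ≤ i * H + (F i).card := by
    intro i
    have hsub : G ⊆ Finset.Icc 1 (i * H) ∪ (F i).image (fun n => n + i * H) := by
      intro n hn
      rw [hG, Finset.mem_filter, Finset.mem_Icc] at hn
      rw [Finset.mem_union, Finset.mem_Icc, Finset.mem_image]
      by_cases h : n ≤ i * H
      · left; exact ⟨hn.1.1, h⟩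
      · right
        refine ⟨n - i * H, ?_, by omega⟩
        rw [hFm]
        refine ⟨⟨by omega, by omega⟩, ?_⟩
        rw [Nat.sub_add_cancel (by omega)]
        exact hn.2
    have g2 := (Finset.card_le_card hsub).trans ((Finset.card_union_le _ _).trans
      (add_le_add le_rfl Finset.card_image_le))
    rw [Nat.card_Icc] at g2
    omega
  -- the pairs
  have hpair : ∀ i j, j < i → i < K → ((F j ∩ F i).card : ℝ) ≤ n0 + 1 / (K : ℝ) ^ 2 * N := by
    intro i j hji hiK
    have hjH : j * H + H ≤ i * H := by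
      have : (j + 1) * H ≤ i * H := Nat.mul_le_mul_right _ hji
      linarith
    have hiH : i * H + H ≤ K * H := by
      have : (i + 1) * H ≤ K * H := Nat.mul_le_mul_right _ hiK
      linarith
    obtain ⟨L', hL'⟩ : ∃ L' : ℕ, L' = (2 * K + 1) * L := ⟨_, rfl⟩
    have hKH : K * H ≤ 2 * K * L := by
      rw [hH]
      have : K * (L + D) ≤ K * (L + L) := Nat.mul_le_mul_left _ (by omega)
      linarith
    have hL'2 : L' = 2 * K * L + L := by rw [hL']; ring
    have h2K : (2 * (K : ℝ) + 1) ≤ D := by exact_mod_cast (by omega : 2 * K + 1 ≤ D)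
    have hlog2K : Real.log (2 * K + 1) ≤ Real.log D := Real.log_le_log (by linarith) h2K
    have hlogDL : Real.log D ≤ Real.log L := Real.log_le_log (by linarith) hDLr
    have hlogL' : Real.log L' = Real.log (2 * K + 1) + Real.log L := by
      rw [hL']
      push_cast
      exact Real.log_mul (by positivity) (by linarith)
    have hz := hordz D L' N (Fin.append (fun a => j * H + m a) (fun a => i * H + m a))
      (Fin.append c (fun a => -c a)) 0 (by omega) (by omega) hN
      (by
        rw [hlogL', hL']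
        push_cast
        calc (2 * (K : ℝ) + 1) * L * (Real.log (2 * K + 1) + Real.log L)
            ≤ (2 * (K : ℝ) + 1) * L * (2 * Real.log L) :=
              mul_le_mul_of_nonneg_left (by linarith) (by positivity)
          _ = 2 * (2 * K + 1) * (L * Real.log L) := by ring
          _ ≤ 2 * (2 * K + 1) * (B * Real.log N) :=
              mul_le_mul_of_nonneg_left hLN (by positivity)
          _ = _ := by ring)
      (by
        rw [hlogL']
        nlinarith)
      (fun a => by
        refine Fin.addCases (fun a => ?_) (fun a => ?_) a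
        · rw [Fin.append_left]
          have := hm a
          omega
        · rw [Fin.append_right]
          have := hm a
          omega)
      (fun a a' => by
        have key : ∀ x y : ℕ, x + D ≤ y → (D : ℝ) ≤ |(x : ℝ) - y| := by
          intro x y h
          have h1 : (x : ℝ) + D ≤ y := by exact_mod_cast h
          rw [abs_sub_comm]
          refine le_trans ?_ (le_abs_self _)
          linarith
        refine Fin.addCases (fun a => ?_) (fun a => ?_) a
        · refine Fin.addCases (fun a' => ?_) (fun a' => ?_) a'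
          · intro h
            rw [Fin.append_left, Fin.append_left]
            push_cast
            have e : (j : ℝ) * H + m a - (j * H + m a') = m a - m a' := by ring
            rw [e]
            exact hsep a a' (fun h' => h (by rw [h']))
          · intro _
            rw [Fin.append_left, Fin.append_right]
            apply key
            have := hm a
            omega
        · refine Fin.addCases (fun a' => ?_) (fun a' => ?_) a'
          · intro _
            rw [Fin.append_left, Fin.append_right, abs_sub_comm]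
            apply key
            have := hm a'
            omega
          · intro h
            rw [Fin.append_right, Fin.append_right]
            push_cast
            have e : (i : ℝ) * H + m a - (i * H + m a') = m a - m a' := by ring
            rw [e]
            exact hsep a a' (fun h' => h (by rw [h'])))
      (by
        rw [Fin.sum_univ_add]
        simp only [Fin.append_left, Fin.append_right]
        rw [Finset.sum_neg_distrib, add_neg_cancel])
      ⟨Fin.castAdd k i1, by rw [Fin.append_left]; exact hi1⟩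
    have hsub : F j ∩ F i ⊆ Finset.Icc 1 n0 ∪ (Finset.Icc 1 N).filter (fun n =>
        |∑ a, (Fin.append c (fun a => -c a)) a *
          ord (n + (Fin.append (fun a => j * H + m a) (fun a => i * H + m a)) a) - 0| ≤
          ε * Real.sqrt (Real.log D) / Real.log (ord n)) := by
      intro n hn
      rw [Finset.mem_inter, hFm, hFm] at hn
      rw [Finset.mem_union, Finset.mem_Icc, Finset.mem_filter, Finset.mem_Icc]
      by_cases h : n ≤ n0
      · left; exact ⟨hn.1.1.1, h⟩
      · right
        refine ⟨hn.1.1, ?_⟩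
        obtain ⟨⟨⟨hn1, _⟩, g1⟩, ⟨_, g2⟩⟩ := hn
        rw [hP] at g1 g2
        have hord : 3 ≤ ord n := hn0 n (by omega)
        have hlog0 : 0 < Real.log (ord n) := Real.log_pos (by linarith)
        have hs0 := Real.sqrt_nonneg (Real.log D)
        have hmono : ∀ a : ℕ, ε / 2 * Real.sqrt (Real.log D) / Real.log (ord (n + a)) ≤
            ε / 2 * Real.sqrt (Real.log D) / Real.log (ord n) := by
          intro a
          apply div_le_div_of_nonneg_left (by positivity) hlog0
          exact Real.log_le_log (by linarith) (SG.ord_mono hn1 (by omega))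
        have g1' := g1.trans (hmono (j * H))
        have g2' := g2.trans (hmono (i * H))
        rw [sub_zero, Fin.sum_univ_add]
        simp only [Fin.append_left, Fin.append_right]
        have e1 : ∀ a, n + (j * H + m a) = n + j * H + m a := fun a => by omega
        have e2 : ∀ a, n + (i * H + m a) = n + i * H + m a := fun a => by omega
        simp only [e1, e2, neg_mul]
        rw [Finset.sum_neg_distrib]
        have e3 : ∑ a, c a * ord (n + j * H + m a) + -∑ a, c a * ord (n + i * H + m a) =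
            (∑ a, c a * ord (n + j * H + m a) - b) - (∑ a, c a * ord (n + i * H + m a) - b) := by ring
        rw [e3]
        refine (abs_sub _ _).trans ?_
        have e4 : ε * Real.sqrt (Real.log D) / Real.log (ord n) =
          ε / 2 * Real.sqrt (Real.log D) / Real.log (ord n) +
          ε / 2 * Real.sqrt (Real.log D) / Real.log (ord n) := by ring
        rw [e4]
        exact add_le_add g1' g2'
    rw [cn_eq] at hz
    have g3 := (Finset.card_le_card hsub).trans (Finset.card_union_le _ _)
    rw [Nat.card_Icc] at g3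
    have g4 : ((F j ∩ F i).card : ℝ) ≤ n0 + (((Finset.Icc 1 N).filter (fun n =>
        |∑ a, (Fin.append c (fun a => -c a)) a *
          ord (n + (Fin.append (fun a => j * H + m a) (fun a => i * H + m a)) a) - 0| ≤
          ε * Real.sqrt (Real.log D) / Real.log (ord n))).card : ℝ) := by
      have : (F j ∩ F i).card ≤ n0 + ((Finset.Icc 1 N).filter (fun n =>
        |∑ a, (Fin.append c (fun a => -c a)) a *
          ord (n + (Fin.append (fun a => j * H + m a) (fun a => i * H + m a)) a) - 0| ≤
          ε * Real.sqrt (Real.log D) / Real.log (ord n))).card := by omega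
      exact_mod_cast this
    linarith
  -- the sum
  have hpig := pig F K
  have hU : ((Finset.range K).biUnion F).card ≤ N := by
    have h1 : (Finset.range K).biUnion F ⊆ Finset.Icc 1 N := by
      intro n hn
      obtain ⟨i, _, hi⟩ := Finset.mem_biUnion.1 hn
      rw [hFm] at hi
      exact Finset.mem_Icc.2 hi.1
    have h2 := Finset.card_le_card h1
    rw [Nat.card_Icc] at h2
    omega
  have hpigr : (∑ i ∈ Finset.range K, ((F i).card : ℝ)) ≤ N +
      ∑ i ∈ Finset.range K, ∑ j ∈ Finset.range i, ((F j ∩ F i).card : ℝ) := by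
    have : ∑ i ∈ Finset.range K, (F i).card ≤ N +
      ∑ i ∈ Finset.range K, ∑ j ∈ Finset.range i, (F j ∩ F i).card := by omega
    exact_mod_cast this
  have hN0 : (0 : ℝ) ≤ n0 + 1 / (K : ℝ) ^ 2 * N := by positivity
  have hS : ∑ i ∈ Finset.range K, ∑ j ∈ Finset.range i, ((F j ∩ F i).card : ℝ) ≤
      (K : ℝ) ^ 2 * (n0 + 1 / (K : ℝ) ^ 2 * N) := by
    calc _ ≤ ∑ i ∈ Finset.range K, (K : ℝ) * (n0 + 1 / (K : ℝ) ^ 2 * N) := by
          refine Finset.sum_le_sum fun i hi => ?_
          have hiK := Finset.mem_range.1 hi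
          calc _ ≤ ∑ j ∈ Finset.range i, (n0 + 1 / (K : ℝ) ^ 2 * N) :=
                Finset.sum_le_sum fun j hj => hpair i j (Finset.mem_range.1 hj) hiK
            _ = i * (n0 + 1 / (K : ℝ) ^ 2 * N) := by
                rw [Finset.sum_const, Finset.card_range, nsmul_eq_mul]
            _ ≤ _ := by
                apply mul_le_mul_of_nonneg_right _ hN0
                exact_mod_cast hiK.le
      _ = _ := by
          rw [Finset.sum_const, Finset.card_range, nsmul_eq_mul]
          ring
  have hGK : (K : ℝ) * G.card ≤ K * (K * H) + ∑ i ∈ Finset.range K, ((F i).card : ℝ) := by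
    have h1 : ∑ i ∈ Finset.range K, (G.card : ℝ) ≤ ∑ i ∈ Finset.range K, ((K * H : ℝ) + (F i).card) := by
      refine Finset.sum_le_sum fun i hi => ?_
      have h2 := hGF i
      have h3 : i * H ≤ K * H := Nat.mul_le_mul_right _ (Finset.mem_range.1 hi).le
      have h4 : G.card ≤ K * H + (F i).card := by omega
      exact_mod_cast h4
    rw [Finset.sum_add_distrib, Finset.sum_const, Finset.sum_const, Finset.card_range, nsmul_eq_mul,
      nsmul_eq_mul] at h1
    exact h1
  have hHr : (H : ℝ) ≤ 2 * L := by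
    rw [hH]; push_cast; linarith
  have e5 : (K : ℝ) ^ 2 * (n0 + 1 / (K : ℝ) ^ 2 * N) = K ^ 2 * n0 + N := by
    field_simp
  rw [e5] at hS
  have g5 : {n | |∑ i, c i * ord (n + m i) - b| ≤ ε / 2 * Real.sqrt (Real.log D) / Real.log (ord n)} =
      {n | P n} := by rw [hP]
  rw [g5, cn_eq]
  have h6 : (K : ℝ) * (K * H) ≤ N := by
    calc (K : ℝ) * (K * H) = K ^ 2 * H := by ring
      _ ≤ L * (2 * L) := mul_le_mul hK2L hHr (Nat.cast_nonneg _) (by linarith)
      _ ≤ N := by nlinarith
  have h7 : (K : ℝ) ^ 2 * n0 ≤ N := by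
    have : (K : ℝ) ^ 2 * n0 ≤ (K : ℝ) ^ 2 * (n0 + 1) := mul_le_mul_of_nonneg_left (by linarith) (by positivity)
    nlinarith
  have h8 : (K : ℝ) * G.card ≤ K * (η * N) := by
    calc (K : ℝ) * G.card ≤ 4 * N := by linarith
      _ ≤ (K * η) * N := mul_le_mul_of_nonneg_right hKη hNpos.le
      _ = K * (η * N) := by ring
  exact le_of_mul_le_mul_left h8 (by linarith)

/-- the final form -/
theorem fin_thm (k : ℕ) (B η : ℝ) (hη : 0 < η) : ∃ (ε : ℝ) (D₀ : ℕ), 0 < ε ∧
    ∀ D L N : ℕ, D₀ ≤ D → D ≤ L → 1 ≤ N → L * Real.log L ≤ B * Real.log N →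
    Real.log L ≤ Real.log D ^ 2 →
    ∀ (m : Fin k → ℕ) (c : Fin k → ℝ) (b : ℝ), (∀ i, m i ≤ L) →
    (∀ i j, i ≠ j → (D : ℝ) ≤ |(m i : ℝ) - m j|) →
    ((∃ i, 1 ≤ |c i|) → cn N {n | |∑ i, c i * ord (n + m i) - b| ≤
      ε * Real.sqrt (Real.log D) / Real.log (ord n)} ≤ η * N) ∧
    ((∃ i, c i ≠ 0) → cn N {n | ∑ i, c i * ord (n + m i) = b} ≤ η * N) := by
  obtain ⟨ε, D1, hε, h⟩ := ordg k (max B 1) (le_max_right _ _) (show 0 < η / 2 by positivity)
  obtain ⟨n0, hn0⟩ := (SG.ord_tendsto.eventually_ge_atTop 3).exists_forall_of_atTop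
  refine ⟨ε, D1 + ⌈2 * n0 / η⌉₊ + ⌈Real.exp (max B 1)⌉₊ + 3, hε,
    fun D L N hD hDL hN hLN hLD m c b hm hsep => ?_⟩
  have hlogN : 0 ≤ Real.log N := Real.log_natCast_nonneg N
  have hLN' : (L : ℝ) * Real.log L ≤ max B 1 * Real.log N :=
    hLN.trans (mul_le_mul_of_nonneg_right (le_max_left _ _) hlogN)
  have hB1 : (1 : ℝ) ≤ max B 1 := le_max_right _ _
  have hNpos : (0 : ℝ) < N := by exact_mod_cast hN
  have hηN : 0 < η * N := by positivity
  have key : ∀ (c : Fin k → ℝ) (b : ℝ), (∃ i, 1 ≤ |c i|) → cn N {n | |∑ i, c i * ord (n + m i) - b| ≤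
      ε * Real.sqrt (Real.log D) / Real.log (ord n)} ≤ η / 2 * N := fun c b hc =>
    h D L N m c b (by omega) hDL hN hLN' hLD hm hsep hc
  refine ⟨fun hc => (key c b hc).trans (by linarith), fun hc => ?_⟩
  obtain ⟨i0, hi0⟩ := hc
  have hi1 : 0 < |c i0| := abs_pos.2 hi0
  have h1 := key (fun i => c i / c i0) (b / c i0) ⟨i0, by rw [div_self hi0, abs_one]⟩
  have hL3 : (3 : ℝ) ≤ L := by exact_mod_cast (by omega : 3 ≤ L)
  have hLB : max B 1 ≤ Real.log L := by
    rw [Real.le_log_iff_exp_le (by linarith)]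
    exact (Nat.le_ceil _).trans (by exact_mod_cast (by omega : ⌈Real.exp (max B 1)⌉₊ ≤ L))
  have hLNr : (L : ℝ) ≤ N := by
    have a1 := Real.log_le_sub_one_of_pos hNpos
    have a2 : max B 1 * (L : ℝ) ≤ max B 1 * Real.log N := by
      refine le_trans ?_ hLN'
      rw [mul_comm]
      exact mul_le_mul_of_nonneg_left hLB (by linarith)
    have a3 := le_of_mul_le_mul_left a2 (by linarith)
    linarith
  have hn0N : (n0 : ℝ) ≤ η / 2 * N := by
    have a1 : 2 * n0 / η ≤ L := (Nat.le_ceil _).trans (by exact_mod_cast (by omega : ⌈2 * n0 / η⌉₊ ≤ L))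
    have a2 : 2 * n0 / η ≤ N := a1.trans hLNr
    rw [div_le_iff₀ hη] at a2
    linarith
  have h2 : cn N {n | ∑ i, c i * ord (n + m i) = b} ≤
      cn N ({n | n < n0} ∪ {n | |∑ i, c i / c i0 * ord (n + m i) - b / c i0| ≤
        ε * Real.sqrt (Real.log D) / Real.log (ord n)}) := by
    refine cn_mono fun n hn _ hb => ?_
    by_cases hlt : n < n0
    · left; exact hlt
    · right
      have h3 : ∑ i, c i / c i0 * ord (n + m i) = b / c i0 := by
        have hb' : ∑ i, c i * ord (n + m i) = b := hb
        rw [← hb', Finset.sum_div]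
        exact Finset.sum_congr rfl fun i _ => by ring
      show |∑ i, c i / c i0 * ord (n + m i) - b / c i0| ≤ _
      rw [h3, sub_self, abs_zero]
      have hord : 3 ≤ ord n := hn0 n (by omega)
      have hlog0 : 0 < Real.log (ord n) := Real.log_pos (by linarith)
      have hs0 := Real.sqrt_nonneg (Real.log D)
      positivity
  have h4 := Pool.Agent.R846.UL.cn_union N {n | n < n0}
    {n | |∑ i, c i / c i0 * ord (n + m i) - b / c i0| ≤
        ε * Real.sqrt (Real.log D) / Real.log (ord n)}
  have h5 := Pool.Agent.R846.UL.cn_lt N n0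
  linarith

end Pool.Agent.K7.H75.LE
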