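import Pool.Agent.K7.H75.LE.HX
import Pool.Agent.R846.VS.G

/-! # Combinations of ordinates following a height -/

set_option autoImplicit false

namespace Pool.Agent.K7.H75.LE

open Filter Topology MeasureTheory
open Pool.Agent.Y743.NC (dev dev_int dev_nonneg)
open Pool.Agent.R321.QA (hs)
open Pool.Agent.R846.VS (Dd dev_meas cheb dev_zero union_bd edge pos1)
open SG (NZ ord ord_le_iff)

/-- the second moment, over a translated range -/
theorem momB (B : ℝ) (hB : 1 ≤ B) : ∃ C R : ℝ, 0 < C ∧ 3 ≤ R ∧ ∀ a T : ℝ, R ≤ a → 1 ≤ T →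
    a * Real.log a ≤ B * Real.log T →
    100 ≤ T ∧ a ≤ Real.log T ∧ ∀ y c : ℝ, 0 < y → y ≤ 2 * a → |c| ≤ 14 →
    IntegrableOn (fun t => dev T y (t + c)) (Set.Icc (T + 14) (2 * T - 14)) ∧
    ∫ t in Set.Icc (T + 14) (2 * T - 14), dev T y (t + c) ≤ (Real.log (1 + y) + C) * T := by
  obtain ⟨C, T0, hC, hT0, hnv⟩ := Pool.Agent.TH850.UV.nv2 (4 * B) (by linarith)
  refine ⟨C, max (Real.exp B) (max 3 (Real.log (max T0 100) + 1)), hC,
    (le_max_left _ _).trans (le_max_right _ _), fun a T ha hT haT => ?_⟩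
  have ha3 : 3 ≤ a := ((le_max_left _ _).trans (le_max_right _ _)).trans ha
  have ha1 : Real.log (max T0 100) + 1 ≤ a := ((le_max_right _ _).trans (le_max_right _ _)).trans ha
  have haB : Real.exp B ≤ a := (le_max_left _ _).trans ha
  have hlaB : B ≤ Real.log a := by
    rw [Real.le_log_iff_exp_le (by linarith)]
    exact haB
  have hla : 1 ≤ Real.log a := by linarith
  have haL : a ≤ Real.log T := by
    have h1 : B * a ≤ B * Real.log T := by nlinarith
    exact le_of_mul_le_mul_left h1 (by linarith)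
  have hTT : max T0 100 ≤ T := by
    by_contra hcon
    have := Real.log_le_log (by linarith : 0 < T) (not_le.1 hcon).le
    linarith
  have hT0' : T0 ≤ T := (le_max_left _ _).trans hTT
  have hT100 : 100 ≤ T := (le_max_right _ _).trans hTT
  refine ⟨hT100, haL, fun y c hy hya hc => ?_⟩
  have hpi := Real.pi_pos
  have hpi3 := Real.pi_gt_three
  have hLT0 : 0 < Real.log T := by linarith
  have hyL : y * Real.log y ≤ 4 * B * Real.log T := by
    rcases le_or_gt y 1 with h1 | h1
    · have h2 : Real.log y ≤ 0 := Real.log_nonpos hy.le h1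
      have h3 : y * Real.log y ≤ 0 := mul_nonpos_of_nonneg_of_nonpos hy.le h2
      have h4 : 0 ≤ 4 * B * Real.log T := by positivity
      linarith
    · have h2 : Real.log y ≤ Real.log 2 + Real.log a := by
        rw [← Real.log_mul (by norm_num) (by linarith)]
        exact Real.log_le_log hy hya
      have h3 := Real.log_two_lt_d9
      have h4 : 0 ≤ Real.log y := Real.log_nonneg h1.le
      have h5 : Real.log y ≤ 2 * Real.log a := by linarith
      calc y * Real.log y ≤ (2 * a) * (2 * Real.log a) := mul_le_mul hya h5 h4 (by linarith)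
        _ = 4 * (a * Real.log a) := by ring
        _ ≤ 4 * (B * Real.log T) := by linarith
        _ = 4 * B * Real.log T := by ring
  have h4 := (hnv T hT0' y hy hyL).2
  have hh0 : 0 ≤ 2 * Real.pi * y / Real.log T := by positivity
  have e1 : ∫ t in T..(2 * T),
      ((Pool.Agent.TH850.UV.cnt t (2 * Real.pi * y / Real.log T) : ℝ) - y) ^ 2 =
      ∫ t in T..(2 * T), dev T y t := by
    refine intervalIntegral.integral_congr fun t ht => ?_
    rw [Set.uIcc_of_le (by linarith)] at ht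
    show ((Pool.Agent.TH850.UV.cnt t (2 * Real.pi * y / Real.log T) : ℝ) - y) ^ 2 = _
    rw [Pool.Agent.Y743.LR.cnt_NZ (by linarith [ht.1]) hh0]
    rfl
  rw [e1] at h4
  have h5 := (abs_le.mp h4).2
  have h6 : ∫ t in T..(2 * T), dev T y t ≤ (Real.log (1 + y) + C) * T := by
    have h7 : 0 ≤ Real.log (1 + y) := Real.log_nonneg (by linarith)
    have h8 : T / Real.pi ^ 2 * Real.log (1 + y) ≤ T * Real.log (1 + y) := by
      apply mul_le_mul_of_nonneg_right _ h7
      rw [div_le_iff₀ (by positivity)]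
      have h9 : 1 ≤ Real.pi ^ 2 := by nlinarith
      calc T = T * 1 := (mul_one T).symm
        _ ≤ T * Real.pi ^ 2 := mul_le_mul_of_nonneg_left h9 (by linarith)
    linarith
  have hc' := abs_le.mp hc
  set f : ℝ → ℝ := fun t => dev T y (t + c) with hf
  have hpre : (fun t : ℝ => t + c) ⁻¹' (Set.Icc (T + 14 + c) (2 * T - 14 + c)) =
      Set.Icc (T + 14) (2 * T - 14) := by
    ext x
    simp only [Set.mem_preimage, Set.mem_Icc]
    constructor <;> rintro ⟨g1, g2⟩ <;> constructor <;> linarith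
  have hfi : IntegrableOn f (Set.Icc (T + 14) (2 * T - 14)) := by
    have h1 := (measurePreserving_add_right volume c).integrableOn_comp_preimage
      (MeasurableEquiv.addRight c).measurableEmbedding (f := dev T y)
      (s := Set.Icc (T + 14 + c) (2 * T - 14 + c))
    rw [hpre] at h1
    exact h1.mpr (dev_int T y _ _)
  have hfI : ∫ t in Set.Icc (T + 14) (2 * T - 14), f t ≤ (Real.log (1 + y) + C) * T := by
    have h1 := (measurePreserving_add_right volume c).setIntegral_preimage_emb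
      (MeasurableEquiv.addRight c).measurableEmbedding (dev T y) (Set.Icc (T + 14 + c) (2 * T - 14 + c))
    rw [hpre] at h1
    have h2 : ∫ t in Set.Icc (T + 14 + c) (2 * T - 14 + c), dev T y t ≤
        ∫ t in Set.Icc T (2 * T), dev T y t :=
      setIntegral_mono_set (dev_int T y _ _) (Eventually.of_forall fun _ => dev_nonneg _ _ _)
        (Set.Icc_subset_Icc (by linarith) (by linarith)).eventuallyLE
    rw [integral_Icc_eq_integral_Ioc (f := dev T y) (x := T),
      ← intervalIntegral.integral_of_le (by linarith)] at h2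
    calc _ = _ := h1
      _ ≤ _ := h2
      _ ≤ _ := h6
  exact ⟨hfi, hfI⟩

/-- the good heights -/
def Good3 (P : Finset ℕ) (S : ℕ) (T R e t : ℝ) : Prop :=
  ∀ x ∈ P, dev T x (t + 0) ≤ R ^ 2 ∧ ∀ s ∈ Finset.Icc (-(S : ℤ)) S,
    dev T |(s : ℝ) * e| (t + hs (min (x : ℝ) (x + s * e)) T) ≤ e ^ 2

/-- **most heights are good** -/
theorem exc3 (B : ℝ) (hB : 1 ≤ B) : ∃ C R₀ : ℝ, 0 < C ∧ 3 ≤ R₀ ∧
    ∀ (k : ℕ) (P : Finset ℕ) (S : ℕ) (a T R e η : ℝ), P.card ≤ k → 0 < η → R₀ ≤ a → 1 ≤ T →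
    a * Real.log a ≤ B * Real.log T → (∀ x ∈ P, (x : ℝ) ≤ a) → (S : ℝ) * e ≤ a → 0 < e → 0 < R →
    k * (Real.log (1 + a) + C) ≤ η / 4 * R ^ 2 →
    k * (2 * S + 1) * (Real.log (1 + S * e) + C) ≤ η / 4 * e ^ 2 → 112 / η ≤ a →
    volume {t ∈ Set.Icc T (2 * T) | ¬ Good3 P S T R e t} ≤ ENNReal.ofReal (3 * η / 4 * T) := by
  obtain ⟨C, R₀, hC, hR₀, hmom⟩ := momB B hB
  refine ⟨C, R₀, hC, hR₀, fun k P S a T R e η hPk hη ha hT haT hP hSa he hR hRk hSk h112 => ?_⟩
  obtain ⟨hT100, haL, hm⟩ := hmom a T ha hT haT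
  have hpi := Real.pi_pos
  have hpi2 := Real.pi_lt_d2
  have hpi3 := Real.pi_gt_three
  have ha3 : (3 : ℝ) ≤ a := hR₀.trans ha
  have hLT : 0 < Real.log T := by linarith
  have hT0 : 0 < T := by linarith
  have hTa : a ≤ T := by
    have := Real.log_le_sub_one_of_pos hT0
    linarith
  set J := Set.Icc (T + 14) (2 * T - 14) with hJ
  -- shifts
  have hshift : ∀ y : ℝ, |y| ≤ 2 * a → |hs y T| ≤ 14 := by
    intro y hy
    unfold hs
    rw [abs_div, abs_mul, abs_of_pos (by positivity : 0 < 2 * Real.pi), abs_of_pos hLT, div_le_iff₀ hLT]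
    calc 2 * Real.pi * |y| ≤ 2 * Real.pi * (2 * a) := mul_le_mul_of_nonneg_left hy (by positivity)
      _ = 4 * Real.pi * a := by ring
      _ ≤ 14 * a := by
          apply mul_le_mul_of_nonneg_right _ (by linarith)
          linarith
      _ ≤ 14 * Real.log T := by linarith
  have hmeas : ∀ y c : ℝ, Measurable fun t => dev T y (t + c) := fun y c =>
    (dev_meas T y).comp (measurable_id.add_const c)
  -- one Chebyshev bound
  have hone : ∀ y c δ : ℝ, 0 ≤ y → y ≤ 2 * a → |c| ≤ 14 → 0 < δ →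
      volume {t ∈ J | δ < dev T y (t + c)} ≤ ENNReal.ofReal ((Real.log (1 + y) + C) * T / δ) := by
    intro y c δ hy0 hy hc hδ
    rcases hy0.eq_or_lt with rfl | hy1
    · have : {t ∈ J | δ < dev T 0 (t + c)} = ∅ := by
        ext t
        simp only [Set.mem_ofPred_eq, Set.mem_empty_iff_false, iff_false, not_and, not_lt, dev_zero]
        exact fun _ => hδ.le
      rw [this, measure_empty]
      exact zero_le
    · obtain ⟨h1, h2⟩ := hm y c hy1 hy hc
      exact cheb (hmeas y c) (fun t => dev_nonneg _ _ _) h1 h2 hδ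
  -- the second set
  have hR2 : 0 < R ^ 2 := by positivity
  have v2 : volume (⋃ x ∈ P, {t ∈ J | R ^ 2 < dev T x (t + 0)}) ≤ ENNReal.ofReal (η / 4 * T) := by
    have h1 : ∀ x ∈ P, volume {t ∈ J | R ^ 2 < dev T x (t + 0)} ≤
        ENNReal.ofReal ((Real.log (1 + a) + C) * T / R ^ 2) := by
      intro x hx
      have hx1 := hP x hx
      have hx0 : (0 : ℝ) ≤ x := Nat.cast_nonneg x
      refine (hone x 0 _ hx0 (by linarith) (by norm_num) hR2).trans (ENNReal.ofReal_le_ofReal ?_)
      apply div_le_div_of_nonneg_right _ hR2.le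
      apply mul_le_mul_of_nonneg_right _ hT0.le
      have := Real.log_le_log (by positivity : 0 < 1 + (x : ℝ)) (by linarith : 1 + (x : ℝ) ≤ 1 + a)
      linarith
    refine (union_bd P (fun x t => dev T x (t + 0)) hPk h1).trans
      (ENNReal.ofReal_le_ofReal ?_)
    have e1 : (k : ℝ) * ((Real.log (1 + a) + C) * T / R ^ 2) = (k * (Real.log (1 + a) + C)) * T / R ^ 2 := by
      ring
    rw [e1, div_le_iff₀ hR2]
    calc (k * (Real.log (1 + a) + C)) * T ≤ (η / 4 * R ^ 2) * T := mul_le_mul_of_nonneg_right hRk hT0.le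
      _ = η / 4 * T * R ^ 2 := by ring
  -- third set
  have he2 : 0 < e ^ 2 := by positivity
  have v3 : volume (⋃ p ∈ P ×ˢ Finset.Icc (-(S : ℤ)) S, {t ∈ J | e ^ 2 <
      dev T |(p.2 : ℝ) * e| (t + hs (min (p.1 : ℝ) (p.1 + p.2 * e)) T)}) ≤
      ENNReal.ofReal (η / 4 * T) := by
    have h1 : ∀ p ∈ P ×ˢ Finset.Icc (-(S : ℤ)) S, volume {t ∈ J | e ^ 2 <
      dev T |(p.2 : ℝ) * e| (t + hs (min (p.1 : ℝ) (p.1 + p.2 * e)) T)} ≤
        ENNReal.ofReal ((Real.log (1 + S * e) + C) * T / e ^ 2) := by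
      rintro ⟨x, s⟩ hp
      obtain ⟨hx, hs'⟩ := Finset.mem_product.1 hp
      have hx1 := hP x hx
      have hx0 : (0 : ℝ) ≤ x := Nat.cast_nonneg x
      have h2 : |(s : ℝ)| ≤ S := by
        have h3 : |s| ≤ (S : ℤ) := abs_le.2 (Finset.mem_Icc.1 hs')
        exact_mod_cast h3
      have h4 : |(s : ℝ) * e| ≤ S * e := by
        rw [abs_mul, abs_of_pos he]
        exact mul_le_mul_of_nonneg_right h2 he.le
      have h5 := abs_le.1 h4
      have h6 : |min (x : ℝ) (x + s * e)| ≤ 2 * a := by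
        rw [abs_le]
        constructor
        · apply le_min <;> linarith
        · exact (min_le_left _ _).trans (by linarith)
      refine (hone |(s : ℝ) * e| _ _ (abs_nonneg _) (by linarith) (hshift _ h6) he2).trans
        (ENNReal.ofReal_le_ofReal ?_)
      apply div_le_div_of_nonneg_right _ he2.le
      apply mul_le_mul_of_nonneg_right _ hT0.le
      have := Real.log_le_log (by positivity : 0 < 1 + |(s : ℝ) * e|)
        (by linarith : 1 + |(s : ℝ) * e| ≤ 1 + S * e)
      linarith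
    have hcard : (P ×ˢ Finset.Icc (-(S : ℤ)) S).card ≤ k * (2 * S + 1) := by
      rw [Finset.card_product, Int.card_Icc]
      have h2 : ((S : ℤ) + 1 - -(S : ℤ)).toNat = 2 * S + 1 := by omega
      rw [h2]
      exact Nat.mul_le_mul_right _ hPk
    refine (union_bd (P ×ˢ Finset.Icc (-(S : ℤ)) S)
      (fun p t => dev T |(p.2 : ℝ) * e| (t + hs (min (p.1 : ℝ) (p.1 + p.2 * e)) T)) hcard h1).trans
      (ENNReal.ofReal_le_ofReal ?_)
    push_cast
    have e1 : (k : ℝ) * (2 * S + 1) * ((Real.log (1 + S * e) + C) * T / e ^ 2) =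
        (k * (2 * S + 1) * (Real.log (1 + S * e) + C)) * T / e ^ 2 := by ring
    rw [e1, div_le_iff₀ he2]
    calc (k * (2 * S + 1) * (Real.log (1 + S * e) + C)) * T ≤ (η / 4 * e ^ 2) * T :=
          mul_le_mul_of_nonneg_right hSk hT0.le
      _ = η / 4 * T * e ^ 2 := by ring
  -- union
  have hsub : {t ∈ Set.Icc T (2 * T) | ¬ Good3 P S T R e t} ⊆
      (Set.Icc T (2 * T) \ Set.Icc (T + 14) (2 * T - 14)) ∪
      ((⋃ x ∈ P, {t ∈ J | R ^ 2 < dev T x (t + 0)}) ∪
      (⋃ p ∈ P ×ˢ Finset.Icc (-(S : ℤ)) S, {t ∈ J | e ^ 2 <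
      dev T |(p.2 : ℝ) * e| (t + hs (min (p.1 : ℝ) (p.1 + p.2 * e)) T)})) := by
    rintro t ⟨ht, hg⟩
    by_cases htJ : t ∈ J
    · right
      by_contra hcon
      simp only [Set.mem_union, not_or] at hcon
      obtain ⟨c2, c3⟩ := hcon
      apply hg
      refine fun x hx => ⟨?_, ?_⟩
      · by_contra h1
        exact c2 (Set.mem_biUnion hx ⟨htJ, not_le.1 h1⟩)
      · intro s hs'
        by_contra h1
        exact c3 (Set.mem_biUnion (x := (x, s)) (Finset.mk_mem_product hx hs') ⟨htJ, not_le.1 h1⟩)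
    · left
      exact ⟨ht, htJ⟩
  have hηT : 0 ≤ η / 4 * T := by positivity
  refine (measure_mono hsub).trans ((measure_union_le _ _).trans ?_)
  refine (add_le_add edge ((measure_union_le _ _).trans (add_le_add v2 v3))).trans ?_
  rw [← ENNReal.ofReal_add hηT hηT, ← ENNReal.ofReal_add (by norm_num) (by linarith)]
  apply ENNReal.ofReal_le_ofReal
  have h28 : 28 ≤ η / 4 * T := by
    rw [div_le_iff₀ hη] at h112
    nlinarith
  linarith

end Pool.Agent.K7.H75.LE
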