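import Pool.Agent.Y743.CL.Ga

/-! # Anticoncentration from convergence to the normal law -/

set_option autoImplicit false

namespace Pool.Agent.K7.H75.LE

open Filter Topology MeasureTheory Set
open Pool.Agent.Y743.CL (gs gs_le gs_bot gs_top)

lemma gs_Ioo {a b : ℝ} (h : a ≤ b) : gs.real (Ioo a b) ≤ b - a := by
  refine (gs_le (by rw [Real.volume_Ioo]; exact ENNReal.ofReal_ne_top)).trans ?_
  rw [Real.volume_real_Ioo_of_le h]

lemma gs_mid {η : ℝ} (hη : 0 < η) : ∃ K : ℝ, 1 ≤ K ∧ 1 - η ≤ gs.real (Ioo (-K) K) := by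
  obtain ⟨K1, hK1⟩ := gs_bot (show 0 < η / 2 by positivity)
  obtain ⟨K2, hK2⟩ := gs_top (show 0 < η / 2 by positivity)
  refine ⟨max 1 (max K1 K2), le_max_left _ _, ?_⟩
  set K := max 1 (max K1 K2) with hK
  have h1 := hK1 K ((le_max_left _ _).trans (le_max_right _ _))
  have h2 := hK2 K ((le_max_right _ _).trans (le_max_right _ _))
  have h3 : (univ : Set ℝ) ⊆ Ioo (-K) K ∪ (Iic (-K) ∪ Ici K) := by
    intro x _
    simp only [mem_union, mem_Ioo, mem_Iic, mem_Ici]
    by_cases g1 : x ≤ -K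
    · right; left; exact g1
    · by_cases g2 : K ≤ x
      · right; right; exact g2
      · left; exact ⟨not_le.1 g1, not_le.1 g2⟩
  have h4 := measureReal_mono (μ := gs) h3 (measure_ne_top _ _)
  have h5 := measureReal_union_le (μ := gs) (Ioo (-K) K) (Iic (-K) ∪ Ici K)
  have h6 := measureReal_union_le (μ := gs) (Iic (-K)) (Ici K)
  rw [probReal_univ] at h4
  linarith

/-- **anticoncentration** -/
theorem anti {η : ℝ} (hη : 0 < η) : ∃ ε₀ : ℝ, 0 < ε₀ ∧ ∀ (T A B : ℕ → ℝ) (Y : ℕ → ℝ → ℝ),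
    (∀ j, Measurable (Y j)) → (∀ j, 0 < T j) → (∀ j, A j ≤ B j) →
    Tendsto (fun j => (B j - A j) / T j) atTop (𝓝 1) →
    (∀ a b, a < b → Tendsto (fun j => volume.real {t ∈ Ioc (A j) (B j) |
      a < Y j t ∧ Y j t < b} / T j) atTop (𝓝 (gs.real (Ioo a b)))) →
    ∀ᶠ j in atTop, ∀ b : ℝ, volume.real {t ∈ Ioc (A j) (B j) | |Y j t - b| ≤ ε₀} ≤ η * T j := by
  obtain ⟨K, hK1, hK⟩ := gs_mid (show 0 < η / 4 by positivity)
  obtain ⟨ε, hε⟩ : ∃ ε : ℝ, ε = min 1 (η / 16) := ⟨_, rfl⟩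
  have hε0 : 0 < ε := by rw [hε]; exact lt_min one_pos (by positivity)
  have hε1 : ε ≤ 1 := by rw [hε]; exact min_le_left _ _
  have hεη : ε ≤ η / 16 := by rw [hε]; exact min_le_right _ _
  refine ⟨ε, hε0, fun T A B Y hY hT hAB hlen hlim => ?_⟩
  obtain ⟨M, hM⟩ : ∃ M : ℕ, (K + 1) / ε + 1 ≤ M := exists_nat_ge _
  have e1 : ∀ᶠ j in atTop, ∀ i ∈ Finset.Icc (-(M : ℤ)) M, volume.real {t ∈ Ioc (A j) (B j) |
      ((i : ℝ) - 2) * ε < Y j t ∧ Y j t < ((i : ℝ) + 3) * ε} / T j ≤ η := by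
    rw [Filter.eventually_all_finset]
    intro i _
    have h1 := hlim (((i : ℝ) - 2) * ε) (((i : ℝ) + 3) * ε) (by nlinarith)
    have h2 := gs_Ioo (show ((i : ℝ) - 2) * ε ≤ ((i : ℝ) + 3) * ε by nlinarith)
    have h3 : gs.real (Ioo (((i : ℝ) - 2) * ε) (((i : ℝ) + 3) * ε)) < η := by
      refine lt_of_le_of_lt h2 ?_
      nlinarith
    exact h1.eventually_le_const h3
  have e2 : ∀ᶠ j in atTop, (B j - A j) / T j - volume.real {t ∈ Ioc (A j) (B j) |
      -K < Y j t ∧ Y j t < K} / T j ≤ η := by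
    have h1 := hlen.sub (hlim (-K) K (by linarith))
    exact h1.eventually_le_const (by linarith)
  filter_upwards [e1, e2] with j h1 h2 b
  have hTj := hT j
  have hfin : volume (Ioc (A j) (B j)) ≠ ⊤ := by rw [Real.volume_Ioc]; exact ENNReal.ofReal_ne_top
  by_cases hb : |b| ≤ K + 1
  · have hb' := abs_le.1 hb
    set i : ℤ := ⌊b / ε⌋ with hi
    have g1 : (i : ℝ) ≤ b / ε := Int.floor_le _
    have g2 : b / ε < i + 1 := Int.lt_floor_add_one _
    rw [le_div_iff₀ hε0] at g1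
    rw [div_lt_iff₀ hε0] at g2
    have him : i ∈ Finset.Icc (-(M : ℤ)) M := by
      rw [Finset.mem_Icc]
      have a1 : b / ε ≤ (K + 1) / ε := div_le_div_of_nonneg_right hb'.2 hε0.le
      have a2 : -((K + 1) / ε) ≤ b / ε := by
        rw [← neg_div]
        exact div_le_div_of_nonneg_right hb'.1 hε0.le
      constructor
      · have : (-(M : ℝ)) ≤ i := by
          have := Int.lt_floor_add_one (b / ε)
          rw [← hi] at this
          linarith
        exact_mod_cast this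
      · have : (i : ℝ) ≤ M := by
          have := Int.floor_le (b / ε)
          rw [← hi] at this
          linarith
        exact_mod_cast this
    have h3 := h1 i him
    rw [div_le_iff₀ hTj] at h3
    refine le_trans (measureReal_mono ?_ (ne_top_of_le_ne_top hfin (measure_mono fun t ht => ht.1))) h3
    rintro t ⟨ht, ht2⟩
    have ht3 := abs_le.1 ht2
    refine ⟨ht, ?_, ?_⟩
    · nlinarith
    · nlinarith
  · rw [← sub_div, div_le_iff₀ hTj] at h2
    refine le_trans ?_ h2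
    have hm : MeasurableSet {t : ℝ | -K < Y j t ∧ Y j t < K} :=
      (measurableSet_lt measurable_const (hY j)).inter (measurableSet_lt (hY j) measurable_const)
    have g1 := measureReal_inter_add_sdiff (μ := volume) (s := Ioc (A j) (B j)) hm hfin
    rw [Real.volume_real_Ioc_of_le (hAB j)] at g1
    have g2 : Ioc (A j) (B j) ∩ {t : ℝ | -K < Y j t ∧ Y j t < K} =
        {t ∈ Ioc (A j) (B j) | -K < Y j t ∧ Y j t < K} := by
      ext t; simp only [mem_inter_iff, mem_ofPred_eq]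
    rw [g2] at g1
    have g3 : volume.real {t ∈ Ioc (A j) (B j) | |Y j t - b| ≤ ε} ≤
        volume.real (Ioc (A j) (B j) \ {t : ℝ | -K < Y j t ∧ Y j t < K}) := by
      refine measureReal_mono ?_ (ne_top_of_le_ne_top hfin (measure_mono sdiff_subset))
      rintro t ⟨ht, ht2⟩
      refine ⟨ht, fun ht3 => hb ?_⟩
      obtain ⟨a1, a2⟩ := ht3
      have a3 := abs_le.1 ht2
      rw [abs_le]
      constructor <;> linarith
    linarith

end Pool.Agent.K7.H75.LE
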