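import Pool.Agent.K7.H75.LE.HO2
import Pool.Agent.R846.VS.I

/-! # Combinations of ordinates with vanishing sum of the coefficients -/

set_option autoImplicit false

open Filter Topology MeasureTheory Set

namespace Pool.Agent.K7.H75.LE

open SG (ord NZ)
open Pool.Agent.R846.UL (cn cn_eq cn_mono)
open Pool.Agent.R846.VS (palm_unif)

/-- one dyadic block -/
theorem blkz (k : ℕ) (B : ℝ) (hB : 1 ≤ B) {ε : ℝ} (hε : 0 < ε) (hε1 : ε ≤ 1) :
    ∃ (ε1 : ℝ) (s0 L0 : ℕ), 0 < ε1 ∧ ∀ (D L : ℕ) (T : ℝ) (m : Fin k → ℕ) (c : Fin k → ℝ) (b : ℝ),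
    L0 ≤ D → D ≤ L → 1 ≤ T → (L : ℝ) * Real.log L ≤ B * Real.log T →
    Real.log L ≤ 3 / 2 * Real.log D ^ 2 → (∀ i, m i ≤ L) →
    (∀ i i', i ≠ i' → (D : ℝ) ≤ |(m i : ℝ) - m i'|) →
    ∑ i, c i = 0 → (∃ i, 1 ≤ |c i|) →
    ∀ (E : ℕ → Prop) [DecidablePred E], (∀ n, E n → |∑ i, c i * ord (n + s0 + m i) - b| ≤
      ε1 * Real.sqrt (Real.log D) / Real.log (ord (n + s0))) →
    (((Finset.Ioc (NZ T) (NZ (2 * T))).filter E).card : ℝ) ≤ ε * (T * Real.log T / (2 * Real.pi)) := by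
  obtain ⟨S', T1, hT1, hpalm⟩ := palm_unif hε hε1
  obtain ⟨ε1, R, hε1', hR, hho⟩ := ho k (4 * B) (by linarith) (η := ε / (8 * (S' + 1))) (by positivity)
  obtain ⟨L2, hL2⟩ := (Pool.Agent.Y743.CL.bigT B hB T1).exists_forall_of_atTop
  obtain ⟨s0, hs0⟩ : ∃ s0 : ℕ, s0 = S' + ⌈R⌉₊ := ⟨_, rfl⟩
  refine ⟨ε1, s0, L2 + s0 + ⌈R⌉₊ + 16, hε1', fun D L T m c b hD hDL hT hLT hLD hm hsep hc0 hc E _ hE => ?_⟩
  have hTT1 := hL2 L (by omega) T hT hLT
  have hT10 : 10 ≤ T := hT1.trans hTT1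
  have hlogT : 0 < Real.log T := Real.log_pos (by linarith)
  have hD16 : (16 : ℝ) ≤ D := by exact_mod_cast (by omega : 16 ≤ D)
  have hL16 : (16 : ℝ) ≤ L := by exact_mod_cast (by omega : 16 ≤ L)
  have hDLr : (D : ℝ) ≤ L := by exact_mod_cast hDL
  have hlogD : 2 ≤ Real.log D := by
    rw [Real.le_log_iff_exp_le (by linarith)]
    have h1 : Real.exp 2 = Real.exp 1 ^ 2 := by rw [← Real.exp_nat_mul]; norm_num
    rw [h1]
    have h2 := Real.exp_one_lt_d9
    have h3 := Real.exp_pos 1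
    nlinarith
  have hlog2 := Real.log_two_lt_d9
  have hlogL : 2 ≤ Real.log L := hlogD.trans (Real.log_le_log (by linarith) hDLr)
  have hlog2L : Real.log (2 * L) = Real.log 2 + Real.log L := Real.log_mul (by norm_num) (by linarith)
  have hRD : R ≤ D := (Nat.le_ceil R).trans (by exact_mod_cast (by omega : ⌈R⌉₊ ≤ D))
  have hsqrt := Real.sqrt_nonneg (Real.log D)
  refine hpalm T hTT1 (fun s => {t | |∑ i, c i * ord (NZ t + 1 + (s0 - s + m i)) - b| ≤
        ε1 * Real.sqrt (Real.log D) / Real.log T}) E ?_ ?_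
  · intro s hs
    refine le_trans (measure_mono ?_) (hho D (2 * L) T (fun i => s0 - s + m i) c b hRD (by linarith) hT
      (by
        rw [hlog2L]
        calc 2 * (L : ℝ) * (Real.log 2 + Real.log L) ≤ 2 * L * (2 * Real.log L) :=
              mul_le_mul_of_nonneg_left (by linarith) (by positivity)
          _ = 4 * (L * Real.log L) := by ring
          _ ≤ 4 * (B * Real.log T) := by linarith
          _ = _ := by ring)
      (by
        rw [hlog2L]
        nlinarith)
      (fun i => by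
        have : ⌈R⌉₊ ≤ s0 - s + m i := by omega
        exact (Nat.le_ceil R).trans (by exact_mod_cast this))
      (fun i => by
        have h1 := hm i
        have : s0 - s + m i ≤ 2 * L := by omega
        exact_mod_cast this)
      (fun i i' hii => by
        push_cast
        have h1 := hsep i i' hii
        have e : ((s0 - s : ℕ) : ℝ) + m i - (((s0 - s : ℕ) : ℝ) + m i') = m i - m i' := by ring
        rw [e]
        exact h1) hc0 hc)
    rintro t ⟨h8, h9⟩
    exact ⟨h9, h8⟩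
  · intro n hn hnT s hs t _ _ hts
    have h8 := hE n hn
    show |∑ i, c i * ord (NZ t + 1 + (s0 - s + m i)) - b| ≤ ε1 * Real.sqrt (Real.log D) / Real.log T
    have e1 : ∀ i, NZ t + 1 + (s0 - s + m i) = n + s0 + m i := fun i => by omega
    simp only [e1]
    refine h8.trans ?_
    have h9 : T < ord (n + s0) := by
      by_contra hcon
      push Not at hcon
      have := (SG.ord_le_iff (by omega : 1 ≤ n + s0) _).mp hcon
      omega
    have h10 : Real.log T ≤ Real.log (ord (n + s0)) := Real.log_le_log (by linarith) h9.le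
    exact div_le_div_of_nonneg_left (by positivity) hlogT h10

/-- **combinations of ordinates with vanishing sum of the coefficients** -/
theorem ordz (k : ℕ) (B : ℝ) (hB : 1 ≤ B) {η : ℝ} (hη : 0 < η) : ∃ (ε : ℝ) (D₀ : ℕ), 0 < ε ∧
    ∀ (D L N : ℕ) (m : Fin k → ℕ) (c : Fin k → ℝ) (b : ℝ), D₀ ≤ D → D ≤ L → 1 ≤ N →
    (L : ℝ) * Real.log L ≤ B * Real.log N → Real.log L ≤ 3 / 2 * Real.log D ^ 2 → (∀ i, m i ≤ L) →
    (∀ i i', i ≠ i' → (D : ℝ) ≤ |(m i : ℝ) - m i'|) → ∑ i, c i = 0 → (∃ i, 1 ≤ |c i|) →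
    cn N {n | |∑ i, c i * ord (n + m i) - b| ≤ ε * Real.sqrt (Real.log D) / Real.log (ord n)} ≤ η * N := by
  classical
  obtain ⟨e, he⟩ : ∃ e : ℝ, e = min (η / 4) 1 := ⟨_, rfl⟩
  have he0 : 0 < e := by rw [he]; exact lt_min (by positivity) one_pos
  have he1 : e ≤ 1 := by rw [he]; exact min_le_right _ _
  have heη : e ≤ η / 4 := by rw [he]; exact min_le_left _ _
  obtain ⟨N₀, hN₀, hasm⟩ := Pool.Agent.R320.CL.asm e he0 he1
  obtain ⟨ε1, s0, L0, hε1, hblk⟩ := blkz k (2 * B) (by linarith) he0 he1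
  refine ⟨ε1, L0 + N₀ + ⌈Real.exp B⌉₊ + ⌈s0 / e⌉₊ + 3, hε1,
    fun D L N m c b hD hDL hN hLN hLD hm hsep hc0 hc => ?_⟩
  have hNpos : (0 : ℝ) < N := by exact_mod_cast hN
  have hL3 : (3 : ℝ) ≤ L := by exact_mod_cast (by omega : 3 ≤ L)
  have hBL : Real.exp B ≤ L := (Nat.le_ceil _).trans (by exact_mod_cast (by omega : ⌈Real.exp B⌉₊ ≤ L))
  have hlogL : B ≤ Real.log L := by
    rw [Real.le_log_iff_exp_le (by linarith)]
    exact hBL
  have hLN' : (L : ℝ) ≤ N := by
    have a1 := Real.log_le_sub_one_of_pos hNpos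
    have a2 : B * (L : ℝ) ≤ B * Real.log N := by
      refine le_trans ?_ hLN
      rw [mul_comm]
      exact mul_le_mul_of_nonneg_left hlogL (by linarith)
    have a3 := le_of_mul_le_mul_left a2 (by linarith)
    linarith
  have hLN'' : L ≤ N := by exact_mod_cast hLN'
  have hNN : N₀ ≤ N := by omega
  obtain ⟨P, hP⟩ : ∃ P : ℕ → Prop, P = fun n => |∑ i, c i * ord (n + m i) - b| ≤
    ε1 * Real.sqrt (Real.log D) / Real.log (ord n) := ⟨_, rfl⟩
  have g1 := hasm N hNN (fun n => P (n + s0)) e he0.le (by linarith)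
    (fun T hT hlog => by
      rw [mul_comm (T * Real.log T / (2 * Real.pi)) e]
      have hBl : B * Real.log N ≤ 2 * B * Real.log T := by
        have := mul_le_mul_of_nonneg_left hlog (by linarith : 0 ≤ B)
        linarith
      exact hblk D L T m c b (by omega) hDL hT (hLN.trans hBl) hLD hm hsep hc0 hc _ (fun n hn => by
        rw [hP] at hn
        exact hn))
  have hsub : (Finset.Icc 1 N).filter P ⊆ Finset.Icc 1 s0 ∪
      ((Finset.Icc 1 N).filter (fun n => P (n + s0))).image (fun n => n + s0) := by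
    intro n hn
    rw [Finset.mem_filter, Finset.mem_Icc] at hn
    rw [Finset.mem_union, Finset.mem_Icc, Finset.mem_image]
    by_cases h : n ≤ s0
    · left; exact ⟨hn.1.1, h⟩
    · right
      refine ⟨n - s0, ?_, by omega⟩
      rw [Finset.mem_filter, Finset.mem_Icc]
      refine ⟨⟨by omega, by omega⟩, ?_⟩
      rw [Nat.sub_add_cancel (by omega)]
      exact hn.2
  have g2 := (Finset.card_le_card hsub).trans ((Finset.card_union_le _ _).trans
    (add_le_add le_rfl Finset.card_image_le))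
  rw [Nat.card_Icc] at g2
  have g3 : (((Finset.Icc 1 N).filter P).card : ℝ) ≤ s0 +
      (((Finset.Icc 1 N).filter (fun n => P (n + s0))).card : ℝ) := by
    have : ((Finset.Icc 1 N).filter P).card ≤ s0 +
      ((Finset.Icc 1 N).filter (fun n => P (n + s0))).card := by omega
    exact_mod_cast this
  have g4 : (s0 : ℝ) ≤ e * N := by
    have a1 : (s0 : ℝ) / e ≤ L := (Nat.le_ceil _).trans (by exact_mod_cast (by omega : ⌈s0 / e⌉₊ ≤ L))
    rw [div_le_iff₀ he0] at a1
    calc (s0 : ℝ) ≤ L * e := a1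
      _ ≤ N * e := mul_le_mul_of_nonneg_right hLN' he0.le
      _ = e * N := by ring
  have g5 : {n | |∑ i, c i * ord (n + m i) - b| ≤ ε1 * Real.sqrt (Real.log D) / Real.log (ord n)} =
      {n | P n} := by rw [hP]
  rw [g5, cn_eq]
  have g6 : e * (N : ℝ) ≤ η / 4 * N := mul_le_mul_of_nonneg_right heη hNpos.le
  have g7 : 0 < η * N := by positivity
  linarith

end Pool.Agent.K7.H75.LE
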