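import Pool.Agent.Y743.CL.Fm

/-! # The central limit theorem for prime polynomials with complex coefficients -/

set_option autoImplicit false

namespace Pool.Agent.K7.H75.LE

open Filter Topology MeasureTheory Complex
open Pool.Agent.Y743.CL (pr pr_apply Pr mem_Pr VS VS_nonneg SS SS_eq SS_le SS_lim pr_orth pr_supp)
open Pool.Agent.Y41.SW (supp_pow supp_mul)

/-! ### completely multiplicative twists -/

/-- the completely multiplicative function with the values `u p` at the primes -/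
noncomputable def chi (u : ℕ → ℂ) (n : ℕ) : ℂ := n.factorization.prod fun p e => u p ^ e

lemma chi_one (u : ℕ → ℂ) : chi u 1 = 1 := by simp [chi]

lemma chi_mul (u : ℕ → ℂ) {m n : ℕ} (hm : m ≠ 0) (hn : n ≠ 0) :
    chi u (m * n) = chi u m * chi u n := by
  unfold chi
  rw [Nat.factorization_mul hm hn]
  exact Finsupp.prod_add_index' (fun _ => pow_zero _) (fun _ _ _ => pow_add _ _ _)

lemma chi_prime (u : ℕ → ℂ) {p : ℕ} (hp : p.Prime) : chi u p = u p := by
  unfold chi
  rw [hp.factorization]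
  exact (Finsupp.prod_single_index (h := fun p e => u p ^ e) (pow_zero _)).trans (pow_one _)

lemma chi_norm {u : ℕ → ℂ} (hu : ∀ p, ‖u p‖ = 1) (n : ℕ) : ‖chi u n‖ = 1 := by
  unfold chi Finsupp.prod
  rw [norm_prod]
  exact Finset.prod_eq_one fun p _ => by rw [norm_pow, hu, one_pow]

/-- the twisted Dirichlet polynomial -/
noncomputable def TP (u : ℕ → ℂ) (f : ℕ → ℝ) (X : ℕ) (t : ℝ) : ℂ :=
  ∑ n ∈ Finset.Icc 1 X, ((f n : ℂ) * chi u n) * (n : ℂ) ^ (-(t : ℂ) * I)

lemma TP_extend (u : ℕ → ℂ) (f : ℕ → ℝ) (X Y : ℕ) (hXY : X ≤ Y) (hf : ∀ n, X < n → f n = 0) (t : ℝ) :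
    TP u f X t = TP u f Y t := by
  unfold TP
  apply Finset.sum_subset
  · exact Finset.Icc_subset_Icc_right hXY
  · intro n hn hn'
    have : X < n := by
      simp only [Finset.mem_Icc, not_and, not_le] at hn hn'
      exact hn' hn.1
    rw [hf n this]; simp

lemma TP_mul (u : ℕ → ℂ) (f g : ArithmeticFunction ℝ) (M N : ℕ) (hf : ∀ n, M < n → f n = 0)
    (hg : ∀ n, N < n → g n = 0) (t : ℝ) :
    TP u f M t * TP u g N t = TP u ⇑(f * g) (M * N) t := by
  unfold TP
  rw [Finset.sum_mul_sum, ← Finset.sum_product']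
  have hmap : ∀ x ∈ Finset.Icc 1 M ×ˢ Finset.Icc 1 N, x.1 * x.2 ∈ Finset.Icc 1 (M * N) := by
    intro x hx
    simp only [Finset.mem_product, Finset.mem_Icc] at hx ⊢
    exact ⟨Nat.one_le_iff_ne_zero.mpr (by
      have h1 := hx.1.1; have h2 := hx.2.1
      positivity), Nat.mul_le_mul hx.1.2 hx.2.2⟩
  rw [← Finset.sum_fiberwise_of_maps_to hmap]
  apply Finset.sum_congr rfl
  intro r hr
  rw [Finset.mem_Icc] at hr
  rw [ArithmeticFunction.mul_apply]
  push_cast
  rw [Finset.sum_mul, Finset.sum_mul]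
  apply Finset.sum_subset_zero_on_sdiff
  · intro x hx
    simp only [Finset.mem_filter, Finset.mem_product, Finset.mem_Icc] at hx
    rw [Nat.mem_divisorsAntidiagonal]
    exact ⟨hx.2, by omega⟩
  · intro x hx
    simp only [Finset.mem_sdiff, Nat.mem_divisorsAntidiagonal, Finset.mem_filter, Finset.mem_product,
      Finset.mem_Icc] at hx
    obtain ⟨⟨h1, h2⟩, h3⟩ := hx
    have hx1 : 1 ≤ x.1 := by
      rcases Nat.eq_zero_or_pos x.1 with h | h
      · rw [h] at h1; omega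
      · exact h
    have hx2 : 1 ≤ x.2 := by
      rcases Nat.eq_zero_or_pos x.2 with h | h
      · rw [h] at h1; omega
      · exact h
    by_cases hM : M < x.1
    · rw [hf _ hM]; simp
    · by_cases hN : N < x.2
      · rw [hg _ hN]; simp
      · exfalso
        push Not at hM hN
        exact h3 ⟨⟨⟨hx1, hM⟩, ⟨hx2, hN⟩⟩, h1⟩
  · intro x hx
    simp only [Finset.mem_filter, Finset.mem_product, Finset.mem_Icc] at hx
    rw [← hx.2, chi_mul u (by omega) (by omega)]
    push_cast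
    rw [Complex.natCast_mul_natCast_cpow]
    ring

lemma TP_pow (u : ℕ → ℂ) (f : ArithmeticFunction ℝ) (X : ℕ) (hf : ∀ n, X < n → f n = 0) (t : ℝ)
    (k : ℕ) : TP u f X t ^ k = TP u ⇑(f ^ k) (X ^ k) t := by
  induction k with
  | zero =>
    rw [pow_zero, pow_zero, pow_zero]
    unfold TP
    simp [chi_one]
  | succ k ih =>
    rw [pow_succ, ih, TP_mul u (f ^ k) f (X ^ k) X (supp_pow f X hf k) hf t, pow_succ, pow_succ]

/-! ### the prime polynomial -/

/-- the prime polynomial with complex coefficients -/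
noncomputable def Gz (z : ℕ → ℂ) (X : ℕ) (t : ℝ) : ℂ := ∑ p ∈ Pr X, z p * (p : ℂ) ^ (-(t : ℂ) * I)

/-- the moduli of the coefficients -/
noncomputable def rr (z : ℕ → ℂ) (p : ℕ) : ℝ := ‖z p‖

/-- the arguments of the coefficients -/
noncomputable def uu (z : ℕ → ℂ) (p : ℕ) : ℂ := if z p = 0 then 1 else z p / ‖z p‖

lemma uu_norm (z : ℕ → ℂ) (p : ℕ) : ‖uu z p‖ = 1 := by
  unfold uu
  split_ifs with h
  · exact norm_one
  · rw [norm_div, Complex.norm_real, norm_norm, div_self (norm_ne_zero_iff.2 h)]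

lemma rr_uu (z : ℕ → ℂ) (p : ℕ) : (rr z p : ℂ) * uu z p = z p := by
  unfold rr uu
  split_ifs with h
  · rw [h, norm_zero]; simp
  · have : (‖z p‖ : ℂ) ≠ 0 := by exact_mod_cast norm_ne_zero_iff.2 h
    field_simp

lemma Gz_eq (z : ℕ → ℂ) (X : ℕ) (t : ℝ) : Gz z X t = TP (uu z) (pr (rr z) X) X t := by
  unfold Gz TP
  rw [Finset.sum_filter]
  refine Finset.sum_congr rfl fun n hn => ?_
  rw [Finset.mem_Icc] at hn
  rw [pr_apply]
  split_ifs with h h2 h2
  · rw [chi_prime _ h, rr_uu]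
  · exact absurd ⟨h, hn.2⟩ h2
  · exact absurd h2.1 h
  · simp

lemma Gz_pow (z : ℕ → ℂ) (X : ℕ) (t : ℝ) (k N : ℕ) (hN : X ^ k ≤ N) :
    Gz z X t ^ k = TP (uu z) ⇑(pr (rr z) X ^ k) N t := by
  rw [Gz_eq, TP_pow _ _ _ (pr_supp _ X)]
  exact TP_extend _ _ _ _ hN (supp_pow _ _ (pr_supp _ X) k) t

lemma Gz_cont (z : ℕ → ℂ) (X : ℕ) : Continuous (Gz z X) := by
  unfold Gz
  refine continuous_finsetSum _ fun n hn => ?_
  have hn0 : (n : ℂ) ≠ 0 := by
    exact_mod_cast (mem_Pr.1 hn).1.ne_zero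
  exact continuous_const.mul (Continuous.const_cpow (by fun_prop) (Or.inl hn0))

/-- the moments at one height -/
lemma mom_bdz (z : ℕ → ℂ) (X : ℕ) (hX : 1 ≤ X) (T A B : ℝ) (hT : 1 ≤ T) (hAB : A ≤ B) (k l : ℕ)
    (hXT : ((X ^ (k + l) : ℕ) : ℝ) ≤ Real.sqrt T) :
    ‖(∫ t in A..B, Gz z X t ^ k * (starRingEnd ℂ) (Gz z X t) ^ l) -
      ((B - A : ℝ) : ℂ) * (if k = l then (SS (rr z) X k : ℂ) else 0)‖ ≤
      8 * (Real.sqrt T * (1 + Real.log T)) *
        (Real.sqrt (k.factorial * VS (rr z) X ^ k) * Real.sqrt (l.factorial * VS (rr z) X ^ l)) := by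
  set c := rr z with hc
  set N : ℕ := X ^ (k + l) with hNdef
  have hN1 : 1 ≤ N := Nat.one_le_pow _ _ hX
  have hkN : X ^ k ≤ N := Nat.pow_le_pow_right hX (by omega)
  have hlN : X ^ l ≤ N := Nat.pow_le_pow_right hX (by omega)
  have hun : ∀ n, ‖chi (uu z) n‖ = 1 := chi_norm (uu_norm z)
  have hint : ∀ t : ℝ, Gz z X t ^ k * (starRingEnd ℂ) (Gz z X t) ^ l =
      (∑ n ∈ Finset.Icc 1 N, ((((pr c X ^ k) n : ℝ) : ℂ) * chi (uu z) n) * (n : ℂ) ^ (-(t : ℂ) * I)) *
      (starRingEnd ℂ) (∑ n ∈ Finset.Icc 1 N, ((((pr c X ^ l) n : ℝ) : ℂ) * chi (uu z) n) *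
        (n : ℂ) ^ (-(t : ℂ) * I)) := by
    intro t
    rw [← map_pow, Gz_pow z X t k N hkN, Gz_pow z X t l N hlN]
    rfl
  have hMV := Pool.Agent.Y840.SW.t_MVB N A B hAB
    (fun n => (((pr c X ^ k) n : ℝ) : ℂ) * chi (uu z) n)
    (fun n => (((pr c X ^ l) n : ℝ) : ℂ) * chi (uu z) n)
  simp only [← hint] at hMV
  have hprod : ∀ n, (((pr c X ^ k) n : ℝ) : ℂ) * chi (uu z) n *
      (starRingEnd ℂ) ((((pr c X ^ l) n : ℝ) : ℂ) * chi (uu z) n) =
      (((pr c X ^ k) n * (pr c X ^ l) n : ℝ) : ℂ) := by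
    intro n
    have h1 : chi (uu z) n * (starRingEnd ℂ) (chi (uu z) n) = 1 := by
      rw [Complex.mul_conj, Complex.normSq_eq_norm_sq, hun]; simp
    rw [map_mul, Complex.conj_ofReal]
    push_cast
    linear_combination (((pr c X ^ k) n : ℝ) : ℂ) * (((pr c X ^ l) n : ℝ) : ℂ) * h1
  have hA : (∑ n ∈ Finset.Icc 1 N, (((pr c X ^ k) n : ℝ) : ℂ) * chi (uu z) n *
      (starRingEnd ℂ) ((((pr c X ^ l) n : ℝ) : ℂ) * chi (uu z) n)) =
      (if k = l then (SS c X k : ℂ) else 0) := by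
    rw [Finset.sum_congr rfl fun n _ => hprod n]
    split_ifs with h
    · subst h
      rw [← SS_eq k N hkN]
      push_cast
      refine Finset.sum_congr rfl fun n _ => ?_
      rw [sq]
    · refine Finset.sum_eq_zero fun n _ => ?_
      rw [pr_orth h n, Complex.ofReal_zero]
  rw [hA] at hMV
  have hS : ∀ i : ℕ, X ^ i ≤ N → (∑ n ∈ Finset.Icc 1 N, ‖(((pr c X ^ i) n : ℝ) : ℂ) * chi (uu z) n‖ ^ 2) ≤
      i.factorial * VS c X ^ i := by
    intro i hi
    refine le_trans (le_of_eq ?_) (SS_le c X i)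
    rw [← SS_eq i N hi]
    refine Finset.sum_congr rfl fun n _ => ?_
    rw [norm_mul, hun, mul_one, Complex.norm_real, Real.norm_eq_abs, sq_abs]
  refine hMV.trans ?_
  have hlogN : Real.log N ≤ Real.log T := by
    apply Real.log_le_log (by exact_mod_cast hN1)
    refine hXT.trans ?_
    rw [Real.sqrt_le_left (by linarith)]
    nlinarith
  have hlogN0 : 0 ≤ Real.log N := Real.log_natCast_nonneg N
  have hlogT0 : 0 ≤ Real.log T := Real.log_nonneg hT
  have hNb : (N:ℝ) * (1 + Real.log N) ≤ Real.sqrt T * (1 + Real.log T) := by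
    apply mul_le_mul hXT (by linarith) (by linarith) (Real.sqrt_nonneg _)
  have h1 := Real.sqrt_le_sqrt (hS k hkN)
  have h2 := Real.sqrt_le_sqrt (hS l hlN)
  have h3 := mul_le_mul h1 h2 (Real.sqrt_nonneg _) (Real.sqrt_nonneg _)
  have h4 : 8 * (N : ℝ) * (1 + Real.log N) ≤ 8 * (Real.sqrt T * (1 + Real.log T)) := by
    have e : 8 * (N : ℝ) * (1 + Real.log N) = 8 * (N * (1 + Real.log N)) := by ring
    rw [e]
    linarith
  exact mul_le_mul h4 h3 (by positivity) (by positivity)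

/-- the moments along a sequence -/
theorem mom_limz (T A B : ℕ → ℝ) (X : ℕ → ℕ) (z : ℕ → ℕ → ℂ) {M : ℝ} (hM : ∀ j p, ‖z j p‖ ^ 2 ≤ M)
    (hT : Tendsto T atTop atTop) (hAB : ∀ j, A j ≤ B j)
    (hlen : Tendsto (fun j => (B j - A j) / T j) atTop (𝓝 1)) (hX1 : ∀ j, 1 ≤ X j)
    (hX : ∀ m : ℕ, ∀ᶠ j in atTop, ((X j ^ m : ℕ) : ℝ) ≤ Real.sqrt (T j))
    (hV : Tendsto (fun j => VS (rr (z j)) (X j)) atTop atTop) (k l : ℕ) :
    Tendsto (fun j => (((1 / T j) * (1 / Real.sqrt (VS (rr (z j)) (X j)) ^ (k + l)) : ℝ) : ℂ) *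
      ∫ t in (A j)..(B j), Gz (z j) (X j) t ^ k * (starRingEnd ℂ) (Gz (z j) (X j) t) ^ l) atTop
      (𝓝 (if k = l then (k.factorial : ℂ) else 0)) := by
  have hM' : ∀ j p, rr (z j) p ^ 2 ≤ M := hM
  -- the main term
  have hmain : Tendsto (fun j => (((1 / T j) * (1 / Real.sqrt (VS (rr (z j)) (X j)) ^ (k + l)) : ℝ) : ℂ) *
      (((B j - A j : ℝ) : ℂ) * (if k = l then (SS (rr (z j)) (X j) k : ℂ) else 0))) atTop
      (𝓝 (if k = l then (k.factorial : ℂ) else 0)) := by
    by_cases h : k = l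
    · subst h
      simp only [if_true]
      have h1 := (hlen.mul (SS_lim (fun j => rr (z j)) X hM' hV k))
      rw [one_mul] at h1
      have h2 := (Complex.continuous_ofReal.tendsto _).comp h1
      have e : ((k.factorial : ℝ) : ℂ) = (k.factorial : ℂ) := by push_cast; rfl
      rw [e] at h2
      refine h2.congr' ?_
      filter_upwards [hV.eventually_gt_atTop 0, hT.eventually_gt_atTop 0] with j hj hTj
      simp only [Function.comp]
      have e1 : Real.sqrt (VS (rr (z j)) (X j)) ^ (k + k) = VS (rr (z j)) (X j) ^ k := by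
        rw [← two_mul, pow_mul, Real.sq_sqrt hj.le]
      rw [e1]
      push_cast
      have e2 : ((VS (rr (z j)) (X j) : ℝ) : ℂ) ≠ 0 := by exact_mod_cast hj.ne'
      have e3 : ((T j : ℝ) : ℂ) ≠ 0 := by exact_mod_cast hTj.ne'
      field_simp
    · simp only [if_neg h, mul_zero]
      exact tendsto_const_nhds
  have herr : Tendsto (fun j => (((1 / T j) * (1 / Real.sqrt (VS (rr (z j)) (X j)) ^ (k + l)) : ℝ) : ℂ) *
      (∫ t in (A j)..(B j), Gz (z j) (X j) t ^ k * (starRingEnd ℂ) (Gz (z j) (X j) t) ^ l) -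
      (((1 / T j) * (1 / Real.sqrt (VS (rr (z j)) (X j)) ^ (k + l)) : ℝ) : ℂ) *
      (((B j - A j : ℝ) : ℂ) * (if k = l then (SS (rr (z j)) (X j) k : ℂ) else 0))) atTop (𝓝 0) := by
    have hb : Tendsto (fun j => 8 * (Real.sqrt k.factorial * Real.sqrt l.factorial) *
        (Real.sqrt (T j) * (1 + Real.log (T j)) / T j)) atTop (𝓝 0) := by
      have := (Pool.Agent.Y41.SW.err_tendsto.comp hT).const_mul
        (8 * (Real.sqrt k.factorial * Real.sqrt l.factorial))
      rwa [mul_zero] at this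
    refine squeeze_zero_norm' ?_ hb
    filter_upwards [hX (k + l), hV.eventually_gt_atTop 0, hT.eventually_ge_atTop 1] with j hXj hVj hTj
    have hT0 : 0 < T j := by linarith
    have h1 := mom_bdz (z j) (X j) (hX1 j) (T j) (A j) (B j) hTj (hAB j) k l hXj
    set V := VS (rr (z j)) (X j) with hVd
    have hs : 0 < Real.sqrt V := Real.sqrt_pos.2 hVj
    rw [← mul_sub, norm_mul, Complex.norm_real, Real.norm_eq_abs, abs_of_pos (by positivity)]
    refine (mul_le_mul_of_nonneg_left h1 (by positivity)).trans (le_of_eq ?_)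
    have e1 : ∀ i : ℕ, Real.sqrt ((i.factorial : ℝ) * V ^ i) =
        Real.sqrt i.factorial * Real.sqrt V ^ i := by
      intro i
      rw [Real.sqrt_mul (by positivity)]
      congr 1
      rw [Real.sqrt_eq_iff_mul_self_eq (by positivity) (by positivity), ← pow_add, ← two_mul,
        pow_mul, Real.sq_sqrt hVj.le]
    rw [e1, e1, pow_add]
    field_simp
  have := herr.add hmain
  rw [zero_add] at this
  refine this.congr fun j => ?_
  ring

/-- the central limit theorem for prime polynomials -/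
theorem clt_polyz (T A B : ℕ → ℝ) (X : ℕ → ℕ) (z : ℕ → ℕ → ℂ) {M : ℝ} (hM : ∀ j p, ‖z j p‖ ^ 2 ≤ M)
    (hT : Tendsto T atTop atTop) (hT0 : ∀ j, 0 < T j) (hAB : ∀ j, A j ≤ B j)
    (hlen : Tendsto (fun j => (B j - A j) / T j) atTop (𝓝 1)) (hX1 : ∀ j, 1 ≤ X j)
    (hX : ∀ m : ℕ, ∀ᶠ j in atTop, ((X j ^ m : ℕ) : ℝ) ≤ Real.sqrt (T j))
    (hV : Tendsto (fun j => VS (rr (z j)) (X j)) atTop atTop) (a b : ℝ) (hab : a < b) :
    Tendsto (fun j => (volume.real {t ∈ Set.Ioc (A j) (B j) |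
      a < Real.sqrt 2 * ((Gz (z j) (X j) t).re / Real.sqrt (VS (rr (z j)) (X j))) ∧
      Real.sqrt 2 * ((Gz (z j) (X j) t).re / Real.sqrt (VS (rr (z j)) (X j))) < b}) / T j) atTop
      (𝓝 ((ProbabilityTheory.gaussianReal 0 1).real (Set.Ioo a b))) := by
  set μ : ℕ → Measure ℝ := fun j => ENNReal.ofReal (1 / T j) • volume.restrict (Set.Ioc (A j) (B j)) with hμ
  set f : ℕ → ℝ → ℂ := fun j t => Gz (z j) (X j) t / (Real.sqrt (VS (rr (z j)) (X j)) : ℂ) with hf
  have hfc : ∀ j, Continuous (f j) := fun j => by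
    simp only [hf]
    exact (Gz_cont _ _).div_const _
  have hfin : ∀ j, IsFiniteMeasure (μ j) := fun j => by
    simp only [hμ]
    refine ⟨?_⟩
    rw [Measure.smul_apply, smul_eq_mul, Measure.restrict_apply_univ, Real.volume_Ioc]
    exact ENNReal.mul_lt_top ENNReal.ofReal_lt_top ENNReal.ofReal_lt_top
  have hint : ∀ (j : ℕ) (g : ℝ → ℂ), ∫ x, g x ∂(μ j) = ((1 / T j : ℝ) : ℂ) * ∫ t in (A j)..(B j), g t := by
    intro j g
    simp only [hμ]
    rw [integral_smul_measure, ENNReal.toReal_ofReal (by have := hT0 j; positivity),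
      intervalIntegral.integral_of_le (hAB j)]
    simp
  have h := Pool.Agent.Y586.SW.t_GM μ f 1 zero_le_one hfin (fun j => (hfc j).measurable)
    (fun j k => by
      have h1 : IntegrableOn (fun x => ‖f j x‖ ^ k) (Set.Ioc (A j) (B j)) volume :=
        (((hfc j).norm.pow k).integrableOn_Icc).mono_set Set.Ioc_subset_Icc_self
      simp only [hμ]
      exact h1.smul_measure ENNReal.ofReal_ne_top)
    (fun k l => by
      have h1 := mom_limz T A B X z hM hT hAB hlen hX1 hX hV k l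
      have e : (if k = l then (k.factorial : ℂ) * ((1 : ℝ) : ℂ) else 0) =
          (if k = l then (k.factorial : ℂ) else 0) := by simp
      rw [e]
      refine h1.congr fun j => ?_
      rw [hint]
      have e2 : ∀ t, f j t ^ k * (starRingEnd ℂ) (f j t) ^ l =
          ((1 / Real.sqrt (VS (rr (z j)) (X j)) ^ (k + l) : ℝ) : ℂ) *
          (Gz (z j) (X j) t ^ k * (starRingEnd ℂ) (Gz (z j) (X j) t) ^ l) := by
        intro t
        simp only [hf]
        rw [map_div₀, Complex.conj_ofReal, div_pow, div_pow, pow_add]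
        push_cast
        ring
      simp only [e2]
      rw [intervalIntegral.integral_const_mul]
      push_cast
      ring) a b hab
  rw [one_mul] at h
  refine h.congr fun j => ?_
  have e3 : ∀ x, (f j x).re = (Gz (z j) (X j) x).re / Real.sqrt (VS (rr (z j)) (X j)) := by
    intro x
    simp only [hf]
    rw [Complex.div_ofReal_re]
  simp only [e3]
  simp only [hμ]
  rw [Measure.real, Measure.smul_apply, smul_eq_mul, ENNReal.toReal_mul,
    ENNReal.toReal_ofReal (by have := hT0 j; positivity)]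
  rw [Measure.restrict_apply']
  · rw [Measure.real, one_div, div_eq_inv_mul]
    congr 3
    ext x
    simp only [Set.mem_inter_iff, Set.mem_ofPred_eq, Set.mem_Ioc]
    tauto
  · exact measurableSet_Ioc

end Pool.Agent.K7.H75.LE
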