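import Pool.Agent.K7.H75.LE.HO

/-! # Anticoncentration for combinations of ordinates following a height -/

set_option autoImplicit false

namespace Pool.Agent.K7.H75.LE

open Filter Topology MeasureTheory
open Pool.Agent.Y743.NC (dev dev_int dev_nonneg)
open Pool.Agent.R321.QA (hs)
open Pool.Agent.R846.VS (Dd dev_meas cheb dev_zero union_bd edge pos1)
open SG (NZ ord ord_le_iff)

/-- the numerical conditions -/
lemma params {κ Q C s r A : ℝ} (hκ : 0 < κ) (hQ : 0 ≤ Q) (hC : 0 < C) (hr : 1 ≤ r) (hs1 : 1 ≤ s)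
    (hrs : r ≤ s) (hsr : s ≤ 2 * r ^ 2) (hsA : s ≤ Real.sqrt A) (hA : (1 + Q + 3 * κ) ^ 2 ≤ A) :
    ∃ S : ℕ, 1 + Q * s + 2 * (κ * r) ≤ S * (κ * r) ∧ (S : ℝ) * (κ * r) ≤ A ∧
    (2 * (S : ℝ) + 1) * (Real.log (1 + S * (κ * r)) + C) ≤
      (4 * (1 + Q) / κ + 7) * r * ((Real.log (2 + 2 * Q + 3 * κ) + C + 4) * Real.sqrt r) := by
  have hr0 : 0 < r := by linarith
  have he : 0 < κ * r := by positivity
  refine ⟨⌈(1 + Q * s + 2 * (κ * r)) / (κ * r)⌉₊, ?_, ?_, ?_⟩
  · have h1 := Nat.le_ceil ((1 + Q * s + 2 * (κ * r)) / (κ * r))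
    rwa [div_le_iff₀ he] at h1
  · have hQs : 0 ≤ Q * s := by positivity
    have h1 := (Nat.ceil_lt_add_one (show 0 ≤ (1 + Q * s + 2 * (κ * r)) / (κ * r) by positivity)).le
    have h2 := mul_le_mul_of_nonneg_right h1 he.le
    have h3 : ((1 + Q * s + 2 * (κ * r)) / (κ * r) + 1) * (κ * r) = 1 + Q * s + 3 * (κ * r) := by
      field_simp; ring
    rw [h3] at h2
    refine h2.trans ?_
    have hA0 : 0 ≤ A := (sq_nonneg _).trans hA
    have h4 : 1 + Q + 3 * κ ≤ Real.sqrt A := Real.le_sqrt_of_sq_le hA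
    calc 1 + Q * s + 3 * (κ * r) ≤ 1 * s + Q * s + 3 * (κ * s) := by
          have : κ * r ≤ κ * s := mul_le_mul_of_nonneg_left hrs hκ.le
          linarith
      _ = (1 + Q + 3 * κ) * s := by ring
      _ ≤ Real.sqrt A * Real.sqrt A := mul_le_mul h4 hsA (by linarith) (Real.sqrt_nonneg _)
      _ = A := Real.mul_self_sqrt hA0
  · have hQs : 0 ≤ Q * s := by positivity
    have h1 := (Nat.ceil_lt_add_one (show 0 ≤ (1 + Q * s + 2 * (κ * r)) / (κ * r) by positivity)).le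
    set S : ℝ := (⌈(1 + Q * s + 2 * (κ * r)) / (κ * r)⌉₊ : ℝ) with hS
    have hS0 : 0 ≤ S := Nat.cast_nonneg _
    have h2 := mul_le_mul_of_nonneg_right h1 he.le
    have h3 : ((1 + Q * s + 2 * (κ * r)) / (κ * r) + 1) * (κ * r) = 1 + Q * s + 3 * (κ * r) := by
      field_simp; ring
    rw [h3] at h2
    have h5 : 1 + Q * s ≤ (1 + Q) * (2 * r ^ 2) := by
      have a1 : (1 + Q) * s ≤ (1 + Q) * (2 * r ^ 2) := mul_le_mul_of_nonneg_left hsr (by linarith)
      nlinarith
    have h6 : 2 * S + 1 ≤ (4 * (1 + Q) / κ + 7) * r := by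
      have a1 : (1 + Q * s) / (κ * r) ≤ (1 + Q) * (2 * r ^ 2) / (κ * r) :=
        div_le_div_of_nonneg_right h5 he.le
      have a2 : (1 + Q) * (2 * r ^ 2) / (κ * r) = 2 * (1 + Q) / κ * r := by field_simp
      have a3 : (1 + Q * s + 2 * (κ * r)) / (κ * r) = (1 + Q * s) / (κ * r) + 2 := by field_simp
      have a4 : (4 * (1 + Q) / κ + 7) * r = 2 * (2 * (1 + Q) / κ * r) + 7 * r := by ring
      rw [a3] at h1
      rw [a4]
      linarith
    have h7 : 1 + S * (κ * r) ≤ (2 + 2 * Q + 3 * κ) * r ^ 2 := by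
      have a1 : Q * s ≤ Q * (2 * r ^ 2) := mul_le_mul_of_nonneg_left hsr hQ
      have a2 : 1 ≤ r ^ 2 := by nlinarith
      have a3 : κ * r ≤ κ * r ^ 2 := mul_le_mul_of_nonneg_left (by nlinarith) hκ.le
      nlinarith
    have h8 : Real.log (1 + S * (κ * r)) + C ≤
        (Real.log (2 + 2 * Q + 3 * κ) + C + 4) * Real.sqrt r := by
      have a1 := Real.log_le_log (by positivity) h7
      rw [Real.log_mul (by positivity) (by positivity), Real.log_pow] at a1
      push_cast at a1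
      set u := Real.sqrt r with hu
      have hu1 : 1 ≤ u := Real.one_le_sqrt.2 hr
      have a2 : Real.log r = 2 * Real.log u := by
        rw [hu, Real.log_sqrt (by linarith)]; ring
      have a3 := Real.log_le_sub_one_of_pos (by linarith : 0 < u)
      have a4 : 0 ≤ Real.log (2 + 2 * Q + 3 * κ) := Real.log_nonneg (by linarith)
      have a5 : Real.log (2 + 2 * Q + 3 * κ) ≤ Real.log (2 + 2 * Q + 3 * κ) * u :=
        le_mul_of_one_le_right a4 hu1
      have a6 : C ≤ C * u := le_mul_of_one_le_right hC.le hu1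
      linarith
    have h9 : 0 ≤ Real.log (1 + S * (κ * r)) + C := by
      have : 0 ≤ Real.log (1 + S * (κ * r)) := Real.log_nonneg (by
        have : 0 ≤ S * (κ * r) := by positivity
        linarith)
      linarith
    exact mul_le_mul h6 h8 h9 (by positivity)

theorem ho1 (k : ℕ) (B : ℝ) (hB : 1 ≤ B) {η : ℝ} (hη : 0 < η) : ∃ ε R : ℝ, 0 < ε ∧ 3 ≤ R ∧
    ∀ (D A T : ℝ) (x : Fin k → ℕ) (c : Fin k → ℝ) (b : ℝ), R ≤ D → D ≤ A → 1 ≤ T →
    A * Real.log A ≤ B * Real.log T → Real.log A ≤ 2 * Real.log D ^ 2 →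
    (∀ i, R ≤ x i) → (∀ i, (x i : ℝ) ≤ A) → (∀ i i', i ≠ i' → D ≤ |(x i : ℝ) - x i'|) →
    ∑ i, c i = 0 → (∀ i, |c i| ≤ 1) → (∃ i, 1 ≤ |c i|) →
    volume {t ∈ Set.Icc T (2 * T) | |∑ i, c i * ord (NZ t + 1 + x i) - b| ≤
      ε * Real.sqrt (Real.log D) / Real.log T} ≤ ENNReal.ofReal (η * T) := by
  obtain ⟨ε, R1, hε, hR1, hhx⟩ := hx k B hB (show 0 < η / 4 by positivity)
  obtain ⟨C, R0, hC, hR0, hexc⟩ := exc3 B hB
  obtain ⟨κ, hκd⟩ : ∃ κ : ℝ, κ = ε / (4 * (k + 1)) := ⟨_, rfl⟩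
  have hk1 : (0 : ℝ) < k + 1 := by positivity
  have hκ : 0 < κ := by rw [hκd]; positivity
  obtain ⟨Q, hQd⟩ : ∃ Q : ℝ, Q = Real.sqrt (4 * (k + 1) * (2 + C) / η) := ⟨_, rfl⟩
  have hQ0 : 0 < Q := by rw [hQd]; exact Real.sqrt_pos.2 (by positivity)
  have hQ2 : Q ^ 2 = 4 * (k + 1) * (2 + C) / η := by rw [hQd]; exact Real.sq_sqrt (by positivity)
  obtain ⟨K1, hK1⟩ : ∃ K1 : ℝ, K1 = 4 * (1 + Q) / κ + 7 := ⟨_, rfl⟩
  obtain ⟨C3, hC3⟩ : ∃ C3 : ℝ, C3 = Real.log (2 + 2 * Q + 3 * κ) + C + 4 := ⟨_, rfl⟩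
  have hK10 : 0 < K1 := by rw [hK1]; positivity
  have hC30 : 0 < C3 := by
    have : 0 ≤ Real.log (2 + 2 * Q + 3 * κ) := Real.log_nonneg (by linarith)
    rw [hC3]; linarith
  obtain ⟨U, hU⟩ : ∃ U : ℝ, U = 4 * (k + 1) * K1 * C3 / (η * κ ^ 2) + 1 := ⟨_, rfl⟩
  have hU1 : 1 ≤ U := by
    have : 0 ≤ 4 * (k + 1) * K1 * C3 / (η * κ ^ 2) := by positivity
    rw [hU]; linarith
  have hUU : 4 * (k + 1) * K1 * C3 / (η * κ ^ 2) ≤ U := by rw [hU]; linarith
  refine ⟨ε, Real.exp (U ^ 4) + R1 + R0 + (1 + Q + 3 * κ) ^ 2 + 112 / η + 3, hε, ?_,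
    fun D A T x c b hD hDA hT hAT hAD hxR hxA hsep hc0 hc1 hc2 => ?_⟩
  · have h1 := Real.exp_pos (U ^ 4)
    have h2 : 0 ≤ 112 / η := by positivity
    have h3 := sq_nonneg (1 + Q + 3 * κ)
    linarith
  have hexpU := Real.exp_pos (U ^ 4)
  have h112 : 0 ≤ 112 / η := by positivity
  have hsq := sq_nonneg (1 + Q + 3 * κ)
  have hDU : Real.exp (U ^ 4) ≤ D := by linarith
  have hDR1 : R1 ≤ D := by linarith
  have hAR0 : R0 ≤ A := by linarith
  have hA2 : (1 + Q + 3 * κ) ^ 2 ≤ A := by linarith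
  have hA112 : 112 / η ≤ A := by linarith
  have hD3 : 3 ≤ D := by linarith
  have hA3 : 3 ≤ A := by linarith
  have hlD : U ^ 4 ≤ Real.log D := by
    rw [Real.le_log_iff_exp_le (by linarith)]
    exact hDU
  have hU4 : 1 ≤ U ^ 4 := one_le_pow₀ hU1
  have hlD1 : 1 ≤ Real.log D := hU4.trans hlD
  have hlDA : Real.log D ≤ Real.log A := Real.log_le_log (by linarith) hDA
  have hlA1 : 1 ≤ Real.log A := hlD1.trans hlDA
  have hT0 : 0 < T := by linarith
  have hLT0 : 0 < Real.log T := by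
    have h1 : 0 < A * Real.log A := by positivity
    have h2 : 0 < B * Real.log T := lt_of_lt_of_le h1 hAT
    exact (mul_pos_iff_of_pos_left (by linarith : 0 < B)).1 h2
  set r := Real.sqrt (Real.log D) with hr
  set s := Real.sqrt (Real.log A) with hs
  have hr2 : r ^ 2 = Real.log D := Real.sq_sqrt (by linarith)
  have hs2 : s ^ 2 = Real.log A := Real.sq_sqrt (by linarith)
  have hr1 : 1 ≤ r := Real.one_le_sqrt.2 hlD1
  have hs1 : 1 ≤ s := Real.one_le_sqrt.2 hlA1
  have hrs : r ≤ s := Real.sqrt_le_sqrt hlDA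
  have hsr : s ≤ 2 * r ^ 2 := by
    rw [hr2]
    rw [hs]
    apply Real.sqrt_le_iff.2
    constructor
    · linarith
    · nlinarith
  have hsA : s ≤ Real.sqrt A := by
    apply Real.sqrt_le_sqrt
    have := Real.log_le_sub_one_of_pos (by linarith : 0 < A)
    linarith
  obtain ⟨S, hS1, hS2, hS3⟩ := params hκ hQ0.le hC hr1 hs1 hrs hsr hsA hA2
  rw [← hK1, ← hC3] at hS3
  set e := κ * r with he
  have he0 : 0 < e := by rw [he]; positivity
  have hU2r : U ≤ Real.sqrt r := by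
    apply Real.le_sqrt_of_sq_le
    rw [hr]
    apply Real.le_sqrt_of_sq_le
    calc (U ^ 2) ^ 2 = U ^ 4 := by ring
      _ ≤ _ := hlD
  have hbad := hexc k (Finset.univ.image x) S A T (Q * s) e η
    (Finset.card_image_le.trans (by rw [Finset.card_univ, Fintype.card_fin])) hη hAR0 hT hAT
    (fun y hy => by
      obtain ⟨i, _, rfl⟩ := Finset.mem_image.1 hy
      exact hxA i) hS2 he0 (by positivity)
    (by
      have h1 : Real.log (1 + A) ≤ 2 * Real.log A := by
        have h2 : Real.log (1 + A) ≤ Real.log (A ^ 2) := Real.log_le_log (by linarith) (by nlinarith)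
        rwa [Real.log_pow] at h2
      have h3 : Real.log (1 + A) + C ≤ (2 + C) * s ^ 2 := by
        rw [hs2]
        have : C ≤ C * Real.log A := le_mul_of_one_le_right hC.le hlA1
        linarith
      calc (k : ℝ) * (Real.log (1 + A) + C) ≤ (k + 1) * ((2 + C) * s ^ 2) := by
            apply mul_le_mul (by linarith) h3 _ hk1.le
            have : 0 ≤ Real.log (1 + A) := Real.log_nonneg (by linarith)
            linarith
        _ = η / 4 * (Q * s) ^ 2 := by
            rw [mul_pow, hQ2]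
            field_simp)
    (by
      have h1 : (k : ℝ) * (2 * S + 1) * (Real.log (1 + S * e) + C) ≤
          (k + 1) * (K1 * r * (C3 * Real.sqrt r)) := by
        rw [mul_assoc]
        apply mul_le_mul (by linarith) hS3 _ hk1.le
        have : 0 ≤ Real.log (1 + S * e) := Real.log_nonneg (by
          have : 0 ≤ (S : ℝ) * e := by positivity
          linarith)
        positivity
      refine h1.trans ?_
      have h2 : 4 * (k + 1) * K1 * C3 ≤ Real.sqrt r * (η * κ ^ 2) := by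
        rw [← div_le_iff₀ (by positivity)]
        exact hUU.trans hU2r
      have h3 : Real.sqrt r * Real.sqrt r = r := Real.mul_self_sqrt (by linarith)
      have h4 : 0 ≤ r * Real.sqrt r := by positivity
      calc (k + 1) * (K1 * r * (C3 * Real.sqrt r)) = (4 * (k + 1) * K1 * C3) / 4 * (r * Real.sqrt r) := by ring
        _ ≤ (Real.sqrt r * (η * κ ^ 2)) / 4 * (r * Real.sqrt r) :=
            mul_le_mul_of_nonneg_right (by linarith) h4
        _ = η / 4 * κ ^ 2 * r * (Real.sqrt r * Real.sqrt r) := by ring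
        _ = η / 4 * e ^ 2 := by rw [h3, he]; ring)
    hA112
  obtain ⟨K, hK⟩ : ∃ K : ℝ, K = Real.log T / (2 * Real.pi) := ⟨_, rfl⟩
  have hpi := Real.pi_pos
  have hK0 : 0 < K := by rw [hK]; positivity
  obtain ⟨b', hb'⟩ : ∃ b' : ℝ, b' = ∑ i, c i * x i - K * b := ⟨_, rfl⟩
  have hgood := hhx D A T (fun i => (x i : ℝ)) c b' hDR1 hDA hT hAT hAD
    (fun i => by
      have := hxR i
      linarith) hxA hsep hc0 hc1 hc2
  have hfin : volume {t | t ∈ Set.Icc T (2 * T) ∧ |∑ i, c i * Dd T t (x i) - b'| ≤ ε * r} ≠ ⊤ :=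
    ne_top_of_le_ne_top (by rw [Real.volume_Icc]; exact ENNReal.ofReal_ne_top)
      (measure_mono fun t ht => ht.1)
  have hgood' : volume {t | t ∈ Set.Icc T (2 * T) ∧ |∑ i, c i * Dd T t (x i) - b'| ≤ ε * r} ≤
      ENNReal.ofReal (η / 4 * T) := by
    rw [← ofReal_measureReal hfin]
    exact ENNReal.ofReal_le_ofReal hgood
  refine (measure_mono (t := {t ∈ Set.Icc T (2 * T) | ¬ Good3 (Finset.univ.image x) S T (Q * s) e t} ∪
    {t | t ∈ Set.Icc T (2 * T) ∧ |∑ i, c i * Dd T t (x i) - b'| ≤ ε * r}) ?_).trans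
    ((measure_union_le _ _).trans ((add_le_add hbad hgood').trans ?_))
  · rintro t ⟨ht, ht2⟩
    by_cases hG : Good3 (Finset.univ.image x) S T (Q * s) e t
    · right
      refine ⟨ht, ?_⟩
      have h1 : ∀ i, |(ord (NZ t + 1 + x i) - t) * K - (x i + 1) + Dd T t (x i)| ≤ 2 * e := by
        intro i
        obtain ⟨g1, g2⟩ := hG (x i) (Finset.mem_image_of_mem x (Finset.mem_univ i))
        have := pos1 hLT0 he0 (by positivity : 0 ≤ Q * s) (by rw [he] at hS1 ⊢; exact hS1) g1 g2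
        rw [hK]
        exact this
      have h2 : ∑ i, c i * Dd T t (x i) - b' =
          ∑ i, c i * ((ord (NZ t + 1 + x i) - t) * K - (x i + 1) + Dd T t (x i)) -
          K * (∑ i, c i * ord (NZ t + 1 + x i) - b) := by
        have h3 : ∀ i, c i * ((ord (NZ t + 1 + x i) - t) * K - (x i + 1) + Dd T t (x i)) =
            K * (c i * ord (NZ t + 1 + x i)) - (t * K + 1) * c i - c i * x i + c i * Dd T t (x i) := by
          intro i; ring
        rw [Finset.sum_congr rfl fun i _ => h3 i, Finset.sum_add_distrib, Finset.sum_sub_distrib,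
          Finset.sum_sub_distrib, ← Finset.mul_sum, ← Finset.mul_sum, hc0, hb']
        ring
      have h4 : |∑ i, c i * ((ord (NZ t + 1 + x i) - t) * K - (x i + 1) + Dd T t (x i))| ≤
          k * (2 * e) := by
        refine (Finset.abs_sum_le_sum_abs _ _).trans ?_
        calc ∑ i, |c i * ((ord (NZ t + 1 + x i) - t) * K - (x i + 1) + Dd T t (x i))|
            ≤ ∑ i : Fin k, 2 * e := by
              refine Finset.sum_le_sum fun i _ => ?_
              rw [abs_mul]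
              calc _ ≤ 1 * |(ord (NZ t + 1 + x i) - t) * K - (x i + 1) + Dd T t (x i)| :=
                    mul_le_mul_of_nonneg_right (hc1 i) (abs_nonneg _)
                _ ≤ _ := by rw [one_mul]; exact h1 i
          _ = _ := by rw [Finset.sum_const, Finset.card_univ, Fintype.card_fin, nsmul_eq_mul]
      have h5 : |K * (∑ i, c i * ord (NZ t + 1 + x i) - b)| ≤ ε * r / 2 := by
        rw [abs_mul, abs_of_pos hK0]
        calc K * |∑ i, c i * ord (NZ t + 1 + x i) - b| ≤ K * (ε * r / Real.log T) :=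
              mul_le_mul_of_nonneg_left ht2 hK0.le
          _ = ε * r / (2 * Real.pi) := by rw [hK]; field_simp
          _ ≤ ε * r / 2 := by
              apply div_le_div_of_nonneg_left (by positivity) (by norm_num)
              linarith [Real.pi_gt_three]
      have h6 : (k : ℝ) * (2 * e) ≤ ε * r / 2 := by
        have h7 : (k + 1 : ℝ) * (2 * e) = ε * r / 2 := by
          rw [he, hκd]; field_simp; ring
        linarith
      rw [h2]
      refine (abs_sub _ _).trans ?_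
      linarith
    · left
      exact ⟨ht, hG⟩
  · rw [← ENNReal.ofReal_add (by positivity) (by positivity)]
    apply ENNReal.ofReal_le_ofReal
    linarith

/-- **anticoncentration for combinations of the ordinates following a height** -/
theorem ho (k : ℕ) (B : ℝ) (hB : 1 ≤ B) {η : ℝ} (hη : 0 < η) : ∃ ε R : ℝ, 0 < ε ∧ 3 ≤ R ∧
    ∀ (D A T : ℝ) (x : Fin k → ℕ) (c : Fin k → ℝ) (b : ℝ), R ≤ D → D ≤ A → 1 ≤ T →
    A * Real.log A ≤ B * Real.log T → Real.log A ≤ 2 * Real.log D ^ 2 →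
    (∀ i, R ≤ x i) → (∀ i, (x i : ℝ) ≤ A) → (∀ i i', i ≠ i' → D ≤ |(x i : ℝ) - x i'|) →
    ∑ i, c i = 0 → (∃ i, 1 ≤ |c i|) →
    volume {t ∈ Set.Icc T (2 * T) | |∑ i, c i * ord (NZ t + 1 + x i) - b| ≤
      ε * Real.sqrt (Real.log D) / Real.log T} ≤ ENNReal.ofReal (η * T) := by
  obtain ⟨ε, R, hε, hR, h⟩ := ho1 k B hB hη
  refine ⟨ε, R, hε, hR, fun D A T x c b hD hDA hT hAT hAD hxR hxA hsep hc0 hc2 => ?_⟩
  obtain ⟨i1, hi1⟩ := hc2
  have : Nonempty (Fin k) := ⟨i1⟩
  obtain ⟨i0, hi0⟩ := Finite.exists_max fun i => |c i|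
  obtain ⟨M, hM⟩ : ∃ M : ℝ, M = |c i0| := ⟨_, rfl⟩
  have hM1 : 1 ≤ M := by
    rw [hM]
    exact hi1.trans (hi0 i1)
  have hM0 : 0 < M := by linarith
  have hcM : ∀ i, |c i / M| = |c i| / M := fun i => by rw [abs_div, abs_of_pos hM0]
  refine le_trans (measure_mono ?_) (h D A T x (fun i => c i / M) (b / M) hD hDA hT hAT hAD hxR hxA hsep
    (by rw [← Finset.sum_div, hc0, zero_div]) (fun i => by
      rw [hcM, div_le_one hM0, hM]
      exact hi0 i) ⟨i0, by rw [hcM, ← hM, div_self hM0.ne']⟩)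
  rintro t ⟨ht, ht2⟩
  refine ⟨ht, ?_⟩
  have h1 : ∑ i, c i / M * ord (NZ t + 1 + x i) - b / M = (∑ i, c i * ord (NZ t + 1 + x i) - b) / M := by
    rw [sub_div, Finset.sum_div]
    congr 1
    exact Finset.sum_congr rfl fun i _ => by ring
  rw [h1, abs_div, abs_of_pos hM0]
  have h2 : |∑ i, c i * ord (NZ t + 1 + x i) - b| / M ≤ |∑ i, c i * ord (NZ t + 1 + x i) - b| :=
    div_le_self (abs_nonneg _) hM1
  exact h2.trans ht2

end Pool.Agent.K7.H75.LE
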