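import Mathlib

/-! # The logarithmic energy of separated points -/

set_option autoImplicit false

namespace Pool.Agent.K7.H75.LE

open MeasureTheory Set

/-- the overlap of two intervals of length `r` -/
lemma overlap (x y r : ℝ) :
    volume.real (Icc x (x + r) ∩ Icc y (y + r)) = max (r - |x - y|) 0 := by
  rw [Icc_inter_Icc, Real.volume_real_Icc]
  congr 1
  rcases le_total x y with h | h
  · rw [abs_of_nonpos (by linarith), inf_eq_left.2 (by linarith), sup_eq_right.2 h]
    ring
  · rw [abs_of_nonneg (by linarith), inf_eq_right.2 (by linarith), sup_eq_left.2 h]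
    ring

variable {ι : Type*} [Fintype ι]

/-- the tent function is positive definite -/
lemma tent (x c : ι → ℝ) (r : ℝ) : 0 ≤ ∑ i, ∑ j, c i * c j * max (r - |x i - x j|) 0 := by
  have hI : ∀ i j, Integrable ((Icc (x i) (x i + r) ∩ Icc (x j) (x j + r)).indicator
      (1 : ℝ → ℝ)) volume := by
    intro i j
    rw [integrable_indicator_iff (measurableSet_Icc.inter measurableSet_Icc)]
    refine integrableOn_const ?_ |>.congr_fun (fun _ _ => rfl) (measurableSet_Icc.inter measurableSet_Icc)
    exact ne_top_of_le_ne_top (by rw [Real.volume_Icc]; exact ENNReal.ofReal_ne_top)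
      (measure_mono inter_subset_left)
  have h1 : ∑ i, ∑ j, c i * c j * max (r - |x i - x j|) 0 =
      ∫ u, (∑ i, c i * (Icc (x i) (x i + r)).indicator (1 : ℝ → ℝ) u) ^ 2 := by
    have h2 : ∀ u, (∑ i, c i * (Icc (x i) (x i + r)).indicator (1 : ℝ → ℝ) u) ^ 2 =
        ∑ i, ∑ j, c i * c j * (Icc (x i) (x i + r) ∩ Icc (x j) (x j + r)).indicator
          (1 : ℝ → ℝ) u := by
      intro u
      rw [sq, Finset.sum_mul_sum]
      refine Finset.sum_congr rfl fun i _ => Finset.sum_congr rfl fun j _ => ?_
      rw [inter_indicator_one, Pi.mul_apply]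
      ring
    simp only [h2]
    rw [integral_finsetSum _ fun i _ => integrable_finsetSum _ fun j _ => (hI i j).const_mul _]
    refine Finset.sum_congr rfl fun i _ => ?_
    rw [integral_finsetSum _ fun j _ => (hI i j).const_mul _]
    refine Finset.sum_congr rfl fun j _ => ?_
    rw [integral_const_mul, integral_indicator_one (measurableSet_Icc.inter measurableSet_Icc),
      overlap]
  rw [h1]
  exact integral_nonneg fun u => sq_nonneg _

/-- the weighted integral of the tent function -/
lemma tent_int {D R d : ℝ} (hD : 0 < D) (hd : D ≤ d) (hR : d ≤ R) :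
    IntervalIntegrable (fun r => max (r - d) 0 / r ^ 2) volume D R ∧
    ∫ r in D..R, max (r - d) 0 / r ^ 2 = Real.log R - 1 - Real.log d + d / R := by
  have hd0 : 0 < d := by linarith
  have hR0 : 0 < R := by linarith
  have hc : ∀ a b, 0 < a → a ≤ b → IntervalIntegrable (fun r => max (r - d) 0 / r ^ 2) volume a b := by
    intro a b ha hab
    apply ContinuousOn.intervalIntegrable
    rw [uIcc_of_le hab]
    refine ContinuousOn.div (by fun_prop) (by fun_prop) fun r hr => ?_
    have : 0 < r := by linarith [hr.1]
    positivity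
  refine ⟨hc D R hD (hd.trans hR), ?_⟩
  rw [← intervalIntegral.integral_add_adjacent_intervals (hc D d hD hd) (hc d R hd0 hR)]
  have h1 : ∫ r in D..d, max (r - d) 0 / r ^ 2 = 0 := by
    rw [intervalIntegral.integral_congr (g := fun _ => (0 : ℝ))]
    · simp
    · intro r hr
      rw [uIcc_of_le hd] at hr
      show max (r - d) 0 / r ^ 2 = 0
      rw [max_eq_right (by linarith [hr.2]), zero_div]
  have h2 : ∫ r in d..R, max (r - d) 0 / r ^ 2 = (Real.log R + d / R) - (Real.log d + d / d) := by
    rw [intervalIntegral.integral_congr (g := fun r => 1 / r - d / r ^ 2)]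
    · refine intervalIntegral.integral_eq_sub_of_hasDerivAt (f := fun r => Real.log r + d / r) ?_ ?_
      · intro r hr
        rw [uIcc_of_le hR] at hr
        have hr0 : r ≠ 0 := by linarith [hr.1]
        have e1 := (Real.hasDerivAt_log hr0).add ((hasDerivAt_inv hr0).const_mul d)
        convert e1 using 1
        · ext r; simp [div_eq_mul_inv]
        · field_simp
          ring
      · apply ContinuousOn.intervalIntegrable
        rw [uIcc_of_le hR]
        refine ContinuousOn.sub (ContinuousOn.div (by fun_prop) (by fun_prop) fun r hr => ?_)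
          (ContinuousOn.div (by fun_prop) (by fun_prop) fun r hr => ?_)
        · linarith [hr.1]
        · have : 0 < r := by linarith [hr.1]
          positivity
    · intro r hr
      rw [uIcc_of_le hR] at hr
      have hr0 : r ≠ 0 := by linarith [hr.1]
      show max (r - d) 0 / r ^ 2 = 1 / r - d / r ^ 2
      rw [max_eq_left (by linarith [hr.1])]
      field_simp
  rw [h1, h2, div_self hd0.ne']
  ring

/-- the weighted integral of the identity -/
lemma tent_int0 {D R : ℝ} (hD : 0 < D) (hR : D ≤ R) :
    IntervalIntegrable (fun r => max (r - 0) 0 / r ^ 2) volume D R ∧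
    ∫ r in D..R, max (r - 0) 0 / r ^ 2 = Real.log R - Real.log D := by
  have hR0 : 0 < R := by linarith
  constructor
  · apply ContinuousOn.intervalIntegrable
    rw [uIcc_of_le hR]
    refine ContinuousOn.div (by fun_prop) (by fun_prop) fun r hr => ?_
    have : 0 < r := by linarith [hr.1]
    positivity
  · rw [intervalIntegral.integral_congr (g := fun r => r⁻¹)]
    · rw [integral_inv_of_pos hD hR0, Real.log_div hR0.ne' hD.ne']
    · intro r hr
      rw [uIcc_of_le hR] at hr
      have hr0 : 0 < r := by linarith [hr.1]
      show max (r - 0) 0 / r ^ 2 = r⁻¹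
      rw [sub_zero, max_eq_left hr0.le]
      field_simp

/-- **the logarithmic energy of separated points** -/
theorem energy (x c : ι → ℝ) (hc : ∑ i, c i = 0) {D : ℝ} (hD : 0 < D)
    (hx : ∀ i j, i ≠ j → D ≤ |x i - x j|) :
    (Real.log D - 1) * ∑ i, c i ^ 2 ≤ -∑ i, ∑ j, c i * c j * Real.log |x i - x j| := by
  classical
  set Λ := ∑ i, ∑ j, c i * c j * Real.log |x i - x j| with hΛ
  set E := ∑ i, ∑ j, c i * c j * |x i - x j| with hE
  set Q := ∑ i, c i ^ 2 with hQ
  -- the basic inequality
  have key : ∀ R : ℝ, D ≤ R → (∀ i j, |x i - x j| ≤ R) →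
      0 ≤ -Λ + E / R + (1 - Real.log D) * Q := by
    intro R hDR hxR
    have hR0 : 0 < R := by linarith
    have hij : ∀ i j, IntervalIntegrable (fun r => max (r - |x i - x j|) 0 / r ^ 2) volume D R ∧
        ∫ r in D..R, max (r - |x i - x j|) 0 / r ^ 2 = (Real.log R - 1) - Real.log |x i - x j| +
          |x i - x j| / R + (if i = j then 1 - Real.log D else 0) := by
      intro i j
      by_cases h : i = j
      · subst h
        rw [sub_self, abs_zero, if_pos rfl, Real.log_zero]
        obtain ⟨h1, h2⟩ := tent_int0 hD hDR
        refine ⟨h1, h2.trans ?_⟩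
        ring
      · rw [if_neg h]
        obtain ⟨h1, h2⟩ := tent_int hD (hx i j h) (hxR i j)
        refine ⟨h1, h2.trans ?_⟩
        ring
    have h1 : 0 ≤ ∫ r in D..R, ∑ i, ∑ j, c i * c j * (max (r - |x i - x j|) 0 / r ^ 2) := by
      apply intervalIntegral.integral_nonneg hDR
      intro r hr
      have h2 := tent x c r
      have h3 : ∑ i, ∑ j, c i * c j * (max (r - |x i - x j|) 0 / r ^ 2) =
          (∑ i, ∑ j, c i * c j * max (r - |x i - x j|) 0) / r ^ 2 := by
        rw [Finset.sum_div]
        refine Finset.sum_congr rfl fun i _ => ?_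
        rw [Finset.sum_div]
        exact Finset.sum_congr rfl fun j _ => by ring
      rw [h3]
      positivity
    have hint : ∀ i ∈ Finset.univ, IntervalIntegrable (fun r => ∑ j, c i * c j *
        (max (r - |x i - x j|) 0 / r ^ 2)) volume D R := by
      intro i _
      have h6 := IntervalIntegrable.sum Finset.univ (f := fun j r => c i * c j *
        (max (r - |x i - x j|) 0 / r ^ 2)) (fun j _ => (hij i j).1.const_mul _)
      have h7 : (fun r => ∑ j, c i * c j * (max (r - |x i - x j|) 0 / r ^ 2)) =
          ∑ j, fun r => c i * c j * (max (r - |x i - x j|) 0 / r ^ 2) := by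
        funext r
        simp only [Finset.sum_apply]
      rw [h7]
      exact h6
    rw [intervalIntegral.integral_finsetSum hint] at h1
    have h4 : ∑ i, ∫ r in D..R, ∑ j, c i * c j * (max (r - |x i - x j|) 0 / r ^ 2) =
        ∑ i, ∑ j, c i * c j * ((Real.log R - 1) - Real.log |x i - x j| +
          |x i - x j| / R + (if i = j then 1 - Real.log D else 0)) := by
      refine Finset.sum_congr rfl fun i _ => ?_
      rw [intervalIntegral.integral_finsetSum fun j _ => (hij i j).1.const_mul _]
      refine Finset.sum_congr rfl fun j _ => ?_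
      rw [intervalIntegral.integral_const_mul, (hij i j).2]
    rw [h4] at h1
    have h5 : ∑ i, ∑ j, c i * c j * ((Real.log R - 1) - Real.log |x i - x j| +
          |x i - x j| / R + (if i = j then 1 - Real.log D else 0)) =
        (Real.log R - 1) * ((∑ i, c i) * ∑ j, c j) - Λ + E / R + (1 - Real.log D) * Q := by
      have e1 : ∑ i, ∑ j, c i * c j * (if i = j then 1 - Real.log D else 0) = (1 - Real.log D) * Q := by
        rw [hQ, Finset.mul_sum]
        refine Finset.sum_congr rfl fun i _ => ?_
        rw [Finset.sum_eq_single i]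
        · rw [if_pos rfl]; ring
        · intro j _ hj
          rw [if_neg (fun h => hj h.symm)]; ring
        · intro h; exact absurd (Finset.mem_univ i) h
      have e2 : (Real.log R - 1) * ((∑ i, c i) * ∑ j, c j) =
          ∑ i, ∑ j, c i * c j * (Real.log R - 1) := by
        rw [Finset.sum_mul_sum, Finset.mul_sum]
        refine Finset.sum_congr rfl fun i _ => ?_
        rw [Finset.mul_sum]
        exact Finset.sum_congr rfl fun j _ => by ring
      have e3 : E / R = ∑ i, ∑ j, c i * c j * (|x i - x j| / R) := by
        rw [hE, Finset.sum_div]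
        refine Finset.sum_congr rfl fun i _ => ?_
        rw [Finset.sum_div]
        exact Finset.sum_congr rfl fun j _ => by ring
      rw [← e1, e2, e3, hΛ, ← Finset.sum_sub_distrib, ← Finset.sum_add_distrib,
        ← Finset.sum_add_distrib]
      refine Finset.sum_congr rfl fun i _ => ?_
      rw [← Finset.sum_sub_distrib, ← Finset.sum_add_distrib, ← Finset.sum_add_distrib]
      exact Finset.sum_congr rfl fun j _ => by ring
    rw [h5, hc] at h1
    linarith
  -- a bound for the distances
  obtain ⟨R0, hR0⟩ : ∃ R0 : ℝ, ∀ i j, |x i - x j| ≤ R0 := by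
    refine ⟨∑ i, ∑ j, |x i - x j|, fun i j => ?_⟩
    refine le_trans ?_ (Finset.single_le_sum (f := fun i => ∑ j, |x i - x j|)
      (fun i _ => Finset.sum_nonneg fun j _ => abs_nonneg _) (Finset.mem_univ i))
    exact Finset.single_le_sum (f := fun j => |x i - x j|) (fun j _ => abs_nonneg _) (Finset.mem_univ j)
  -- the limit
  have hfin : ∀ ε : ℝ, 0 < ε → (Real.log D - 1) * Q ≤ -Λ + ε := by
    intro ε hε
    set R := max (max D R0) (|E| / ε) with hR
    have h1 := key R ((le_max_left _ _).trans (le_max_left _ _))
      (fun i j => (hR0 i j).trans ((le_max_right _ _).trans (le_max_left _ _)))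
    have hRp : 0 < R := lt_of_lt_of_le hD ((le_max_left _ _).trans (le_max_left _ _))
    have h2 : E / R ≤ ε := by
      rw [div_le_iff₀ hRp]
      have h3 : |E| / ε ≤ R := le_max_right _ _
      rw [div_le_iff₀ hε] at h3
      linarith [le_abs_self E]
    linarith
  exact le_of_forall_pos_le_add hfin

end Pool.Agent.K7.H75.LE
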