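import Pool.Agent.K7.H75.LE.CA
import Pool.Agent.K7.H75.LE.KE
import Pool.Agent.Y743.CL.Cb

/-! # The variance of a combination of the numbers of ordinates in windows -/

set_option autoImplicit false

namespace Pool.Agent.K7.H75.LE

open Complex Filter Topology MeasureTheory Set
open Pool.Agent.TH850.UV (kap kap_sq kap_le ggo norm_one_sub_cpow)
open ArithmeticFunction (vonMangoldt)
open H370.A2 (lamC lamC_norm)
open Pool.Agent.Y743.CL (pr pr_apply Pr mem_Pr VS VS_nonneg rc rc_sq kap_rc G XK er)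
open SG (NZ)

variable {k : ℕ}

/-- the combination of the coefficients -/
noncomputable def zc (l : ℝ) (h c : Fin k → ℝ) (n : ℕ) : ℂ := ∑ j, (c j : ℂ) * kap l (h j) n

lemma kap_small (l h : ℝ) {n : ℕ} (hn : n < 2) : kap l h n = 0 := by
  have h0 : lamC n = 0 := by
    rw [← norm_eq_zero, lamC_norm, ArithmeticFunction.vonMangoldt_eq_zero_iff]
    intro h
    have := h.one_lt
    omega
  unfold kap
  rw [h0]
  ring

lemma kap_le' {l : ℝ} (hl : 0 < l) (h : ℝ) (n : ℕ) : ‖kap l h n‖ ≤ 1 := by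
  rcases Nat.lt_or_ge n 2 with hn | hn
  · rw [kap_small l h hn, norm_zero]
    exact zero_le_one
  · exact kap_le hl h n hn

lemma zc_le {l : ℝ} (hl : 0 < l) (h c : Fin k → ℝ) (n : ℕ) : ‖zc l h c n‖ ≤ ∑ j, |c j| := by
  unfold zc
  refine (norm_sum_le _ _).trans (Finset.sum_le_sum fun j _ => ?_)
  rw [norm_mul, Complex.norm_real, Real.norm_eq_abs]
  exact mul_le_of_le_one_right (abs_nonneg _) (kap_le' hl _ _)

lemma kap_form (l : ℝ) (n : ℕ) : ∃ w : ℂ, ∀ h : ℝ, kap l h n = w * (1 - (n : ℂ) ^ (-(h : ℂ) * I)) :=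
  ⟨(2 * (1 / Real.sqrt (2 * Real.pi)) : ℝ) * (lamC n * (Real.sqrt n : ℂ)⁻¹ * (ggo l n : ℂ)) *
    ((l / (2 * Real.pi) : ℝ) / (I * Real.log n)), fun h => by unfold kap; ring⟩

lemma cpow_trig (n : ℕ) (hn : 1 ≤ n) (h : ℝ) :
    (n : ℂ) ^ (-(h : ℂ) * I) = (Real.cos (h * Real.log n) : ℂ) - (Real.sin (h * Real.log n) : ℂ) * I := by
  have hn0 : (n : ℂ) ≠ 0 := by exact_mod_cast (by omega : n ≠ 0)
  rw [Complex.cpow_def_of_ne_zero hn0, ← Complex.natCast_log]
  have e : (Real.log n : ℂ) * (-(h : ℂ) * I) = ((-(h * Real.log n) : ℝ) : ℂ) * I := by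
    push_cast; ring
  rw [e, Complex.exp_mul_I, ← Complex.ofReal_cos, ← Complex.ofReal_sin, Real.cos_neg, Real.sin_neg]
  push_cast
  ring

/-- the square of a combination with vanishing sum -/
lemma zc_sq (l : ℝ) (h c : Fin k → ℝ) (hc : ∑ j, c j = 0) (n : ℕ) :
    ‖zc l h c n‖ ^ 2 = -(1 / 2) * ∑ i, ∑ j, c i * c j * ‖kap l (h i - h j) n‖ ^ 2 := by
  rcases Nat.lt_or_ge n 2 with hn | hn
  · unfold zc
    simp only [kap_small _ _ hn, norm_zero, mul_zero, Finset.sum_const_zero]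
    norm_num
  obtain ⟨w, hw⟩ := kap_form l n
  have hn1 : 1 ≤ n := by omega
  have h1 : zc l h c n = -w * (((∑ j, c j * Real.cos (h j * Real.log n) : ℝ) : ℂ) +
      ((-∑ j, c j * Real.sin (h j * Real.log n) : ℝ) : ℂ) * I) := by
    unfold zc
    have h2 : ∀ j, (c j : ℂ) * kap l (h j) n = w * (c j : ℂ) - w * ((c j * Real.cos (h j * Real.log n) : ℝ) : ℂ) +
        w * (((c j * Real.sin (h j * Real.log n)) : ℝ) : ℂ) * I := by
      intro j
      rw [hw, cpow_trig n hn1]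
      push_cast
      ring
    rw [Finset.sum_congr rfl fun j _ => h2 j, Finset.sum_add_distrib, Finset.sum_sub_distrib,
      ← Finset.mul_sum, ← Finset.mul_sum, ← Finset.sum_mul, ← Finset.mul_sum, ← Complex.ofReal_sum, hc,
      ← Complex.ofReal_sum, ← Complex.ofReal_sum]
    push_cast
    ring
  have h3 : ‖zc l h c n‖ ^ 2 = ‖w‖ ^ 2 * ((∑ j, c j * Real.cos (h j * Real.log n)) ^ 2 +
      (∑ j, c j * Real.sin (h j * Real.log n)) ^ 2) := by
    rw [h1, norm_mul, norm_neg, mul_pow]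
    congr 1
    rw [← Complex.normSq_eq_norm_sq, Complex.normSq_add_mul_I]
    ring
  have h4 : ∀ i j, c i * c j * ‖kap l (h i - h j) n‖ ^ 2 =
      2 * ‖w‖ ^ 2 * (c i * c j) - 2 * ‖w‖ ^ 2 * ((c i * Real.cos (h i * Real.log n)) *
        (c j * Real.cos (h j * Real.log n))) - 2 * ‖w‖ ^ 2 * ((c i * Real.sin (h i * Real.log n)) *
        (c j * Real.sin (h j * Real.log n))) := by
    intro i j
    rw [hw, norm_mul, mul_pow, norm_one_sub_cpow n hn1, sub_mul, Real.cos_sub]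
    ring
  have h5 : ∑ i, ∑ j, c i * c j * ‖kap l (h i - h j) n‖ ^ 2 =
      2 * ‖w‖ ^ 2 * ((∑ i, c i) * ∑ j, c j) - 2 * ‖w‖ ^ 2 * ((∑ i, c i * Real.cos (h i * Real.log n)) *
        ∑ j, c j * Real.cos (h j * Real.log n)) - 2 * ‖w‖ ^ 2 * ((∑ i, c i * Real.sin (h i * Real.log n)) *
        ∑ j, c j * Real.sin (h j * Real.log n)) := by
    rw [Finset.sum_mul_sum, Finset.sum_mul_sum, Finset.sum_mul_sum]
    simp only [h4, Finset.sum_sub_distrib, Finset.mul_sum]
  rw [h3, h5, hc]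
  ring

/-- the variance in terms of the differences -/
lemma VS_zc (l : ℝ) (h c : Fin k → ℝ) (hc : ∑ j, c j = 0) (X : ℕ) :
    VS (rr (zc l h c)) X = -(1 / 2) * ∑ i, ∑ j, c i * c j * VS (rc l (h i - h j)) X := by
  unfold VS
  have h1 : ∀ p ∈ Pr X, rr (zc l h c) p ^ 2 = -(1 / 2) * ∑ i, ∑ j, c i * c j * rc l (h i - h j) p ^ 2 := by
    intro p hp
    unfold rr
    rw [zc_sq l h c hc]
    congr 1
    refine Finset.sum_congr rfl fun i _ => Finset.sum_congr rfl fun j _ => ?_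
    rw [rc_sq _ _ _ (mem_Pr.1 hp).1.two_le]
  rw [Finset.sum_congr rfl h1, ← Finset.mul_sum]
  congr 1
  rw [Finset.sum_comm]
  refine Finset.sum_congr rfl fun i _ => ?_
  rw [Finset.sum_comm]
  refine Finset.sum_congr rfl fun j _ => ?_
  rw [Finset.mul_sum]

lemma rc_neg (l h : ℝ) (n : ℕ) : rc l (-h) n = -rc l h n := by
  unfold rc
  rw [neg_div, neg_mul, Real.sin_neg]
  ring

lemma VS_abs (l h : ℝ) (X : ℕ) : VS (rc l |h|) X = VS (rc l h) X := by
  rcases abs_choice h with h1 | h1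
  · rw [h1]
  · rw [h1]
    unfold VS
    exact Finset.sum_congr rfl fun p _ => by rw [rc_neg, neg_sq]

lemma VS_zero (l : ℝ) (X : ℕ) : VS (rc l 0) X = 0 := by
  unfold VS
  refine Finset.sum_eq_zero fun p _ => ?_
  unfold rc
  simp

/-- **the lower bound for the variance** -/
theorem var_lb (l T : ℝ) (hT : 0 < Real.log T) (x c : Fin k → ℝ) (hc : ∑ j, c j = 0) (X : ℕ) {D C' : ℝ}
    (hD : 0 < D) (hx : ∀ i j, i ≠ j → D ≤ |x i - x j|) (hC' : 0 ≤ C')
    (hV : ∀ i j, i ≠ j → |VS (rc l (2 * Real.pi * |x i - x j| / Real.log T)) X -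
      2 / Real.pi ^ 2 * Real.log (|x i - x j|)| ≤ C') :
    1 / Real.pi ^ 2 * ((Real.log D - 1) * ∑ i, c i ^ 2) - C' / 2 * (∑ i, |c i|) ^ 2 ≤
      VS (rr (zc l (fun j => 2 * Real.pi * x j / Real.log T) c)) X := by
  have hpi := Real.pi_pos
  rw [VS_zc _ _ _ hc]
  have h1 : ∀ i j, |VS (rc l (2 * Real.pi * x i / Real.log T - 2 * Real.pi * x j / Real.log T)) X -
      2 / Real.pi ^ 2 * Real.log (|x i - x j|)| ≤ C' := by
    intro i j
    by_cases h : i = j
    · subst h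
      rw [sub_self, sub_self, VS_zero, abs_zero, Real.log_zero, mul_zero, sub_zero, abs_zero]
      exact hC'
    · have e : 2 * Real.pi * |x i - x j| / Real.log T =
          |2 * Real.pi * x i / Real.log T - 2 * Real.pi * x j / Real.log T| := by
        rw [← sub_div, ← mul_sub, abs_div, abs_mul, abs_of_pos (by positivity : 0 < 2 * Real.pi),
          abs_of_pos hT]
      have h2 := hV i j h
      rw [e, VS_abs] at h2
      exact h2
  have h2 : ∀ i j, c i * c j * VS (rc l (2 * Real.pi * x i / Real.log T - 2 * Real.pi * x j / Real.log T)) X ≤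
      2 / Real.pi ^ 2 * (c i * c j * Real.log |x i - x j|) + C' * (|c i| * |c j|) := by
    intro i j
    have h3 := h1 i j
    set v := VS (rc l (2 * Real.pi * x i / Real.log T - 2 * Real.pi * x j / Real.log T)) X
    have h4 : c i * c j * v = 2 / Real.pi ^ 2 * (c i * c j * Real.log |x i - x j|) +
        c i * c j * (v - 2 / Real.pi ^ 2 * Real.log |x i - x j|) := by ring
    have h5 : c i * c j * (v - 2 / Real.pi ^ 2 * Real.log |x i - x j|) ≤ C' * (|c i| * |c j|) := by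
      refine (le_abs_self _).trans ?_
      rw [abs_mul, abs_mul, mul_comm]
      exact mul_le_mul_of_nonneg_right h3 (by positivity)
    linarith
  have h3 : ∑ i, ∑ j, c i * c j * VS (rc l (2 * Real.pi * x i / Real.log T - 2 * Real.pi * x j / Real.log T)) X ≤
      2 / Real.pi ^ 2 * (∑ i, ∑ j, c i * c j * Real.log |x i - x j|) + C' * (∑ i, |c i|) ^ 2 := by
    calc _ ≤ ∑ i, ∑ j, (2 / Real.pi ^ 2 * (c i * c j * Real.log |x i - x j|) + C' * (|c i| * |c j|)) :=
          Finset.sum_le_sum fun i _ => Finset.sum_le_sum fun j _ => h2 i j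
      _ = _ := by
          rw [sq (∑ i, |c i|), Finset.sum_mul_sum]
          simp only [Finset.sum_add_distrib, Finset.mul_sum]
  have h4 := energy x c hc hD hx
  have h5 : 0 < 1 / Real.pi ^ 2 := by positivity
  have h6 := mul_le_mul_of_nonneg_left h4 h5.le
  have h7 : 1 / Real.pi ^ 2 * -∑ i, ∑ j, c i * c j * Real.log |x i - x j| =
      -(1 / 2) * (2 / Real.pi ^ 2 * (∑ i, ∑ j, c i * c j * Real.log |x i - x j|)) := by ring
  linarith

/-- the prime polynomial of one window -/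
lemma G_kap (l h : ℝ) (X : ℕ) (t : ℝ) : G (rc l h) X (t + h / 2) = Gz (fun p => kap l h p) X t := by
  unfold G Gz Pool.Agent.Y41.SW.DP
  rw [Finset.sum_filter]
  refine Finset.sum_congr rfl fun n hn => ?_
  rw [Finset.mem_Icc] at hn
  rw [pr_apply]
  split_ifs with h1 h2 h2
  · exact (kap_rc l h n h2.two_le t).symm
  · exact absurd h1.1 h2
  · exact absurd ⟨h2, hn.2⟩ h1
  · simp

lemma Gz_sum (l : ℝ) (h c : Fin k → ℝ) (X : ℕ) (t : ℝ) :
    ∑ j, c j * (Gz (fun p => kap l (h j) p) X t).re = (Gz (zc l h c) X t).re := by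
  have h1 : Gz (zc l h c) X t = ∑ j, (c j : ℂ) * Gz (fun p => kap l (h j) p) X t := by
    unfold Gz zc
    simp only [Finset.sum_mul, Finset.mul_sum]
    rw [Finset.sum_comm]
    refine Finset.sum_congr rfl fun j _ => Finset.sum_congr rfl fun p _ => ?_
    ring
  rw [h1, Complex.re_sum]
  refine Finset.sum_congr rfl fun j _ => ?_
  rw [Complex.re_ofReal_mul]

end Pool.Agent.K7.H75.LE
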